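import Mathlib

set_option autoImplicit false

namespace Pool.Agent.Helper91.BE

/-- The normalised peak coefficients `c N m = d N m * m!^2 * (N-2m)! / N!`. -/
def cc : ℕ → ℕ → ℚ
  | 0, 0 => 1
  | 0, (_ + 1) => 0
  | (_ + 1), 0 => 1
  | (N + 1), (m + 1) =>
      if 2 * (m + 1) ≤ N + 1 then
        (((N : ℚ) + 1 - 2 * ((m : ℚ) + 1)) * ((m : ℚ) + 2) * cc N (m + 1)
          + 4 * ((m : ℚ) + 1) ^ 2 * cc N m) / ((N : ℚ) + 1)
      else 0

lemma cc_zero_right (N : ℕ) : cc N 0 = 1 := by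
  cases N <;> simp [cc]

lemma cc_eq_zero : ∀ (N m : ℕ), N < 2 * m → cc N m = 0
  | 0, 0, h => by omega
  | 0, (m + 1), _ => by simp [cc]
  | (N + 1), 0, h => by omega
  | (N + 1), (m + 1), h => by
      rw [cc, if_neg (by omega)]

lemma cc_succ_succ (N m : ℕ) (h : 2 * (m + 1) ≤ N + 1) :
    ((N : ℚ) + 1) * cc (N + 1) (m + 1) =
      ((N : ℚ) + 1 - 2 * ((m : ℚ) + 1)) * ((m : ℚ) + 2) * cc N (m + 1)
          + 4 * ((m : ℚ) + 1) ^ 2 * cc N m := by
  rw [cc, if_pos h]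
  have : (N : ℚ) + 1 ≠ 0 := by positivity
  field_simp

lemma cc_pos : ∀ (N m : ℕ), 2 * m ≤ N → 0 < cc N m
  | 0, 0, _ => by simp [cc]
  | 0, (m + 1), h => by omega
  | (N + 1), 0, _ => by simp [cc]
  | (N + 1), (m + 1), h => by
      rw [cc, if_pos h]
      have h1 : 0 < cc N m := cc_pos N m (by omega)
      have h2 : 0 ≤ ((N : ℚ) + 1 - 2 * ((m : ℚ) + 1)) * ((m : ℚ) + 2) * cc N (m + 1) := by
        rcases Nat.lt_or_ge N (2 * (m + 1)) with h3 | h3
        · rw [cc_eq_zero _ _ h3]; simp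
        · have h4 := cc_pos N (m + 1) h3
          have h5 : (0 : ℚ) ≤ (N : ℚ) + 1 - 2 * ((m : ℚ) + 1) := by
            have : (2 * (m + 1 : ℕ) : ℚ) ≤ ((N + 1 : ℕ) : ℚ) := by exact_mod_cast h
            push_cast at this; linarith
          positivity
      positivity

lemma cc_nonneg (N m : ℕ) : 0 ≤ cc N m := by
  rcases Nat.lt_or_ge N (2 * m) with h | h
  · rw [cc_eq_zero _ _ h]
  · exact (cc_pos N m h).le

/-- `c` is nondecreasing in `m`. -/
lemma cc_mono : ∀ (N m : ℕ), 2 * (m + 1) ≤ N → cc N m ≤ cc N (m + 1)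
  | 0, m, h => by omega
  | (N + 1), m, h => by
      have hN : (0 : ℚ) < (N : ℚ) + 1 := by positivity
      have e1 := cc_succ_succ N m h
      have h0 : 0 ≤ cc N m := cc_nonneg N m
      -- difference D = N - 2(m+1) + 1
      have hD : (0 : ℚ) ≤ (N : ℚ) + 1 - 2 * ((m : ℚ) + 1) := by
        have : (2 * (m + 1 : ℕ) : ℚ) ≤ ((N + 1 : ℕ) : ℚ) := by exact_mod_cast h
        push_cast at this; linarith
      have hc : ((N : ℚ) + 1 - 2 * ((m : ℚ) + 1)) * cc N m ≤
          ((N : ℚ) + 1 - 2 * ((m : ℚ) + 1)) * cc N (m + 1) := by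
        rcases Nat.lt_or_ge N (2 * (m + 1)) with h3 | h3
        · have : (N : ℚ) + 1 = 2 * ((m : ℚ) + 1) := by
            have : N + 1 = 2 * (m + 1) := by omega
            exact_mod_cast this
          rw [this]; simp
        · exact mul_le_mul_of_nonneg_left (cc_mono N m h3) hD
      have key : ((N : ℚ) + 1) * cc (N + 1) m ≤ ((N : ℚ) + 1) * cc (N + 1) (m + 1) := by
        rw [e1]
        cases m with
        | zero =>
          have hN1 : (1 : ℚ) ≤ (N : ℚ) := by exact_mod_cast (by omega : 1 ≤ N)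
          simp only [cc_zero_right] at hc ⊢
          push_cast at hc ⊢
          nlinarith
        | succ p =>
          have e2 := cc_succ_succ N p (by omega)
          rw [e2]
          have h6 : cc N p ≤ cc N (p + 1) := cc_mono N p (by omega)
          have h7 : 0 ≤ cc N p := cc_nonneg N p
          push_cast at *
          have h8 : ((N : ℚ) + 1 - 2 * ((p : ℚ) + 1 + 1)) * ((p:ℚ) + 3) * cc N (p + 1) ≤
            ((N : ℚ) + 1 - 2 * ((p : ℚ) + 1 + 1)) * ((p:ℚ) + 3) * cc N (p + 1 + 1) := by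
            have : (0:ℚ) ≤ (p:ℚ) + 3 := by positivity
            nlinarith [mul_le_mul_of_nonneg_left hc this]
          nlinarith [mul_le_mul_of_nonneg_left h6 (show (0:ℚ) ≤ 4 * ((p:ℚ)+1)^2 by positivity), mul_nonneg hD h0, mul_nonneg (show (0:ℚ) ≤ (p:ℚ) by positivity) h0]
      exact le_of_mul_le_mul_left key hN

lemma alg_lower (M E x y z : ℚ) (hM : 2 ≤ M) (hE : 0 ≤ E) (hME : 0 < M - E)
    (hx : 0 ≤ x) (hy : 0 ≤ y)
    (i2 : E * x * (M - E + 1) ≤ E * (8 * M * y))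
    (i1 : (M - E - 2) * y ≤ 8 * (M - 1) * z) :
    (M - E) * (E * (M + 1) * x + 4 * M ^ 2 * y) ≤
      8 * M * ((E + 2) * M * y + 4 * (M - 1) ^ 2 * z) := by
  have T1 : 0 ≤ (M + 1) * (E * (8 * M * y) - E * x * (M - E + 1)) :=
    mul_nonneg (by linarith) (by linarith)
  have T2 : 0 ≤ 4 * M * (M - 1) * (8 * (M - 1) * z - (M - E - 2) * y) :=
    mul_nonneg (mul_nonneg (by linarith) (by linarith)) (by linarith)
  have T3 : 0 ≤ (M + 1) * E * x := by positivity
  have T4 : 0 ≤ 4 * M * (M + 2 - E) * y :=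
    mul_nonneg (mul_nonneg (by linarith) (by linarith)) hy
  have e : 8 * M * ((E + 2) * M * y + 4 * (M - 1) ^ 2 * z) -
      (M - E) * (E * (M + 1) * x + 4 * M ^ 2 * y) =
      (M + 1) * (E * (8 * M * y) - E * x * (M - E + 1)) +
      4 * M * (M - 1) * (8 * (M - 1) * z - (M - E - 2) * y) +
      (M + 1) * E * x + 4 * M * (M + 2 - E) * y := by ring
  linarith

/-- The lower bound for the ratio `c (m) / c (m+1)`. -/
lemma cc_lower : ∀ (N m : ℕ), 2 * (m + 1) ≤ N →
    (3 * ((m : ℚ) + 1) - (N : ℚ)) * cc N (m + 1) ≤ 8 * ((m : ℚ) + 1) * cc N m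
  | 0, m, h => by omega
  | (N + 1), m, h => by
      have hN : (0 : ℚ) < (N : ℚ) + 1 := by positivity
      have h0 : 0 ≤ cc (N + 1) m := cc_nonneg _ m
      have h1 : 0 ≤ cc (N + 1) (m + 1) := cc_nonneg _ _
      by_cases hs : 3 * ((m : ℚ) + 1) - ((N : ℚ) + 1) ≤ 0
      · push_cast
        have : (3 * ((m : ℚ) + 1) - ((N : ℚ) + 1)) * cc (N + 1) (m + 1) ≤ 0 :=
          mul_nonpos_of_nonpos_of_nonneg hs h1
        have h2 : 0 ≤ 8 * ((m : ℚ) + 1) * cc (N + 1) m := by positivity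
        linarith
      · have hs' : 0 < 3 * ((m : ℚ) + 1) - ((N : ℚ) + 1) := not_le.mp hs
        have e1 := cc_succ_succ N m h
        rcases Nat.eq_zero_or_pos m with hm | hm
        · subst hm
          have : N = 1 := by
            have : ((N + 1 : ℕ) : ℚ) < ((3 : ℕ) : ℚ) := by push_cast at hs' ⊢; linarith
            have : N + 1 < 3 := by exact_mod_cast this
            omega
          subst this
          have e3 : cc (1 + 1) (0 + 1) = 2 := by
            have := e1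
            rw [cc_zero_right] at this
            push_cast at this
            linarith
          rw [e3, cc_zero_right]; norm_num
        obtain ⟨p, rfl⟩ : ∃ p, m = p + 1 := ⟨m - 1, by omega⟩
        have e2 := cc_succ_succ N p (by omega)
        have i1 := cc_lower N p (by omega)
        have hD : (0 : ℚ) ≤ (N : ℚ) + 1 - 2 * ((p : ℚ) + 2) := by
          have : (2 * (p + 1 + 1 : ℕ) : ℚ) ≤ ((N + 1 : ℕ) : ℚ) := by exact_mod_cast h
          push_cast at this; linarith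
        have hp : (0 : ℚ) ≤ (p : ℚ) := by positivity
        push_cast at hs' e1 e2
        have i2 : ((N : ℚ) + 1 - 2 * ((p : ℚ) + 2)) * cc N (p + 2) *
            (((p : ℚ) + 2) - ((N : ℚ) + 1 - 2 * ((p : ℚ) + 2)) + 1) ≤
            ((N : ℚ) + 1 - 2 * ((p : ℚ) + 2)) * (8 * ((p : ℚ) + 2) * cc N (p + 1)) := by
          rcases Nat.lt_or_ge N (2 * (p + 2)) with h3 | h3
          · have : N + 1 = 2 * (p + 2) := by omega
            have h4 : (N : ℚ) + 1 = 2 * ((p : ℚ) + 2) := by exact_mod_cast this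
            rw [h4]; simp
          · have i3 := cc_lower N (p + 1) h3
            push_cast at i3
            have i4 : (((p : ℚ) + 2) - ((N : ℚ) + 1 - 2 * ((p : ℚ) + 2)) + 1) * cc N (p + 2)
                ≤ 8 * ((p : ℚ) + 2) * cc N (p + 1) := by
              have e3 : 3 * ((p : ℚ) + 1 + 1) - (N : ℚ) =
                (((p : ℚ) + 2) - ((N : ℚ) + 1 - 2 * ((p : ℚ) + 2)) + 1) := by ring
              have e4 : (p : ℚ) + 1 + 1 = (p : ℚ) + 2 := by ring
              rw [e3, e4] at i3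
              exact i3
            calc _ = ((N : ℚ) + 1 - 2 * ((p : ℚ) + 2)) *
                  ((((p : ℚ) + 2) - ((N : ℚ) + 1 - 2 * ((p : ℚ) + 2)) + 1) * cc N (p + 2)) := by
                  ring
              _ ≤ _ := mul_le_mul_of_nonneg_left i4 hD
        have i1' : (((p : ℚ) + 2) - ((N : ℚ) + 1 - 2 * ((p : ℚ) + 2)) - 2) * cc N (p + 1) ≤
            8 * (((p : ℚ) + 2) - 1) * cc N p := by
          have e3 : 3 * ((p : ℚ) + 1) - (N : ℚ) =
            ((p : ℚ) + 2) - ((N : ℚ) + 1 - 2 * ((p : ℚ) + 2)) - 2 := by ring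
          have e4 : (p : ℚ) + 1 = ((p : ℚ) + 2) - 1 := by ring
          rw [e3, e4] at i1
          exact i1
        have al := alg_lower ((p : ℚ) + 2) ((N : ℚ) + 1 - 2 * ((p : ℚ) + 2)) (cc N (p + 2))
          (cc N (p + 1)) (cc N p) (by linarith) hD (by linarith) (cc_nonneg _ _)
          (cc_nonneg _ _) i2 i1'
        have key : ((N : ℚ) + 1) *
            ((3 * ((p : ℚ) + 1 + 1) - ((N : ℚ) + 1)) * cc (N + 1) (p + 1 + 1)) ≤
            ((N : ℚ) + 1) * (8 * ((p : ℚ) + 1 + 1) * cc (N + 1) (p + 1)) := by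
          have l1 : ((N : ℚ) + 1) *
              ((3 * ((p : ℚ) + 1 + 1) - ((N : ℚ) + 1)) * cc (N + 1) (p + 1 + 1)) =
              (3 * ((p : ℚ) + 1 + 1) - ((N : ℚ) + 1)) *
                (((N : ℚ) + 1) * cc (N + 1) (p + 1 + 1)) := by ring
          have l2 : ((N : ℚ) + 1) * (8 * ((p : ℚ) + 1 + 1) * cc (N + 1) (p + 1)) =
            8 * ((p : ℚ) + 1 + 1) * (((N : ℚ) + 1) * cc (N + 1) (p + 1)) := by ring
          rw [l1, l2, e1, e2]
          refine le_trans (le_of_eq ?_) (le_trans al (le_of_eq ?_))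
          · ring
          · ring
        have := le_of_mul_le_mul_left key hN
        push_cast
        exact this

lemma alg_logc (M E x y z t : ℚ) (hM : 1 ≤ M) (hE : 2 ≤ E)
    (hx : 0 < x) (hy : 0 < y)
    (h1 : (E - 2) * (x * z) ≤ (E - 2) * y ^ 2)
    (h2 : (M - 1) ^ 2 * (y * t) ≤ (M - 1) ^ 2 * x ^ 2)
    (h3 : (E - 2) * (M - 1) ^ 2 * (z * t) ≤ (E - 2) * (M - 1) ^ 2 * (x * y)) :
    ((E - 2) * (M + 2) * z + 4 * (M + 1) ^ 2 * y) * ((E + 2) * M * x + 4 * (M - 1) ^ 2 * t) ≤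
      (E * (M + 1) * y + 4 * M ^ 2 * x) ^ 2 := by
  have T1 := mul_le_mul_of_nonneg_left h1 (show 0 ≤ (E + 2) * M * (M + 2) by positivity)
  have T2 := mul_le_mul_of_nonneg_left h2 (show 0 ≤ 16 * (M + 1) ^ 2 by positivity)
  have T3 := mul_le_mul_of_nonneg_left h3 (show 0 ≤ 4 * (M + 2) by positivity)
  have S1 : 0 ≤ 4 * ((M + 1) * y - 2 * M * x) ^ 2 := by positivity
  have S2 : 0 ≤ (E ^ 2 - 4) * y ^ 2 := mul_nonneg (by nlinarith) (by positivity)
  have S3 : 0 ≤ 16 * (M ^ 2 - 1) * x ^ 2 := mul_nonneg (by nlinarith) (by positivity)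
  have S4 : 0 ≤ 8 * ((E - 2) * (M - 1)) * (x * y) :=
    mul_nonneg (mul_nonneg (by norm_num) (mul_nonneg (by linarith) (by linarith)))
      (by positivity)
  have e : (E * (M + 1) * y + 4 * M ^ 2 * x) ^ 2 -
      ((E - 2) * (M + 2) * z + 4 * (M + 1) ^ 2 * y) * ((E + 2) * M * x + 4 * (M - 1) ^ 2 * t) =
      4 * ((M + 1) * y - 2 * M * x) ^ 2 + (E ^ 2 - 4) * y ^ 2 + 16 * (M ^ 2 - 1) * x ^ 2 +
      8 * ((E - 2) * (M - 1)) * (x * y) +
      ((E + 2) * M * (M + 2) * ((E - 2) * y ^ 2) - (E + 2) * M * (M + 2) * ((E - 2) * (x * z))) +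
      (16 * (M + 1) ^ 2 * ((M - 1) ^ 2 * x ^ 2) - 16 * (M + 1) ^ 2 * ((M - 1) ^ 2 * (y * t))) +
      (4 * (M + 2) * ((E - 2) * (M - 1) ^ 2 * (x * y)) -
        4 * (M + 2) * ((E - 2) * (M - 1) ^ 2 * (z * t))) := by ring
  linarith

/-- Log-concavity of `c` in `m`. -/
lemma cc_logc : ∀ (N m : ℕ), 2 * (m + 2) ≤ N → cc N m * cc N (m + 2) ≤ cc N (m + 1) ^ 2
  | 0, m, h => by omega
  | (N + 1), m, h => by
      have hN : (0 : ℚ) < (N : ℚ) + 1 := by positivity
      have e1 := cc_succ_succ N m (by omega)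
      have e0 := cc_succ_succ N (m + 1) (by omega)
      have hx : 0 < cc N m := cc_pos N m (by omega)
      have hy : 0 < cc N (m + 1) := cc_pos N (m + 1) (by omega)
      have hz : 0 ≤ cc N (m + 2) := cc_nonneg _ _
      have hE : (2 : ℚ) ≤ (N : ℚ) + 1 - 2 * ((m : ℚ) + 1) := by
        have : (2 * (m + 2 : ℕ) : ℚ) ≤ ((N + 1 : ℕ) : ℚ) := by exact_mod_cast h
        push_cast at this; linarith
      have hm : (0 : ℚ) ≤ (m : ℚ) := by positivity
      -- the hypothesis at (m)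
      have h1 : ((N : ℚ) + 1 - 2 * ((m : ℚ) + 1) - 2) * (cc N m * cc N (m + 2)) ≤
          ((N : ℚ) + 1 - 2 * ((m : ℚ) + 1) - 2) * cc N (m + 1) ^ 2 := by
        rcases Nat.lt_or_ge N (2 * (m + 2)) with h3 | h3
        · have : N + 1 = 2 * (m + 2) := by omega
          have h4 : (N : ℚ) + 1 = 2 * ((m : ℚ) + 2) := by exact_mod_cast this
          have h5 : (N : ℚ) + 1 - 2 * ((m : ℚ) + 1) - 2 = 0 := by rw [h4]; ring
          rw [h5]; simp
        · exact mul_le_mul_of_nonneg_left (cc_logc N m h3) (by linarith)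
      rcases Nat.eq_zero_or_pos m with hm0 | hm0
      · subst hm0
        have al := alg_logc 1 ((N : ℚ) + 1 - 2 * (((0 : ℕ) : ℚ) + 1)) (cc N 0) (cc N 1)
          (cc N 2) 0 le_rfl hE hx hy h1 (by norm_num) (by norm_num)
        have key : ((N : ℚ) + 1) ^ 2 * (cc (N + 1) 0 * cc (N + 1) 2) ≤
            ((N : ℚ) + 1) ^ 2 * (cc (N + 1) 1 ^ 2) := by
          have l1 : ((N : ℚ) + 1) ^ 2 * (cc (N + 1) 0 * cc (N + 1) 2) =
            (((N : ℚ) + 1) * cc (N + 1) (0 + 1 + 1)) * (((N : ℚ) + 1) * cc (N + 1) 0) := by ring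
          have l2 : ((N : ℚ) + 1) ^ 2 * (cc (N + 1) 1 ^ 2) =
            (((N : ℚ) + 1) * cc (N + 1) (0 + 1)) ^ 2 := by ring
          rw [l1, l2, e0, e1, cc_zero_right, cc_zero_right]
          rw [cc_zero_right] at al
          push_cast at al ⊢
          refine le_trans (le_of_eq ?_) (le_trans al (le_of_eq ?_))
          · ring
          · ring
        exact le_of_mul_le_mul_left key (by positivity)
      · obtain ⟨p, rfl⟩ : ∃ p, m = p + 1 := ⟨m - 1, by omega⟩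
        have e2 := cc_succ_succ N p (by omega)
        have ht : 0 < cc N p := cc_pos N p (by omega)
        have h2' : cc N p * cc N (p + 2) ≤ cc N (p + 1) ^ 2 := cc_logc N p (by omega)
        have h2 : (((p + 1 : ℕ) : ℚ) + 1 - 1) ^ 2 * (cc N (p + 1 + 1) * cc N p) ≤
            (((p + 1 : ℕ) : ℚ) + 1 - 1) ^ 2 * cc N (p + 1) ^ 2 := by
          apply mul_le_mul_of_nonneg_left _ (by positivity)
          rw [mul_comm]; exact h2'
        have h3 : ((N : ℚ) + 1 - 2 * (((p + 1 : ℕ) : ℚ) + 1) - 2) *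
            (((p + 1 : ℕ) : ℚ) + 1 - 1) ^ 2 * (cc N (p + 1 + 2) * cc N p) ≤
            ((N : ℚ) + 1 - 2 * (((p + 1 : ℕ) : ℚ) + 1) - 2) *
            (((p + 1 : ℕ) : ℚ) + 1 - 1) ^ 2 * (cc N (p + 1) * cc N (p + 1 + 1)) := by
          -- (E-2) z x ≤ (E-2) y^2, y t ≤ x^2  =>  (E-2) z t ≤ (E-2) x y
          have hA : ((N : ℚ) + 1 - 2 * (((p + 1 : ℕ) : ℚ) + 1) - 2) *
              (cc N (p + 1 + 2) * cc N p) ≤
              ((N : ℚ) + 1 - 2 * (((p + 1 : ℕ) : ℚ) + 1) - 2) *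
              (cc N (p + 1) * cc N (p + 1 + 1)) := by
            have hxy : 0 < cc N (p + 1) * cc N (p + 1 + 1) := mul_pos hx hy
            refine le_of_mul_le_mul_left ?_ hxy
            have q1 := mul_le_mul_of_nonneg_right h1
              (show 0 ≤ cc N (p + 1 + 1) * cc N p by positivity)
            have q2 : ((N : ℚ) + 1 - 2 * (((p + 1 : ℕ) : ℚ) + 1) - 2) *
                cc N (p + 1 + 1) ^ 2 * (cc N p * cc N (p + 2)) ≤
                ((N : ℚ) + 1 - 2 * (((p + 1 : ℕ) : ℚ) + 1) - 2) *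
                cc N (p + 1 + 1) ^ 2 * (cc N (p + 1) ^ 2) := by
              apply mul_le_mul_of_nonneg_left h2'
              apply mul_nonneg _ (by positivity)
              linarith
            have r1 : cc N (p + 1) * cc N (p + 1 + 1) *
                (((N : ℚ) + 1 - 2 * (((p + 1 : ℕ) : ℚ) + 1) - 2) *
                (cc N (p + 1 + 2) * cc N p)) =
                ((N : ℚ) + 1 - 2 * (((p + 1 : ℕ) : ℚ) + 1) - 2) *
                (cc N (p + 1) * cc N (p + 1 + 2)) * (cc N (p + 1 + 1) * cc N p) := by ring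
            have r2 : ((N : ℚ) + 1 - 2 * (((p + 1 : ℕ) : ℚ) + 1) - 2) *
                cc N (p + 1 + 1) ^ 2 * (cc N (p + 1 + 1) * cc N p) =
                ((N : ℚ) + 1 - 2 * (((p + 1 : ℕ) : ℚ) + 1) - 2) *
                cc N (p + 1 + 1) ^ 2 * (cc N p * cc N (p + 2)) := by ring
            have r3 : cc N (p + 1) * cc N (p + 1 + 1) *
                (((N : ℚ) + 1 - 2 * (((p + 1 : ℕ) : ℚ) + 1) - 2) *
                (cc N (p + 1) * cc N (p + 1 + 1))) =
                ((N : ℚ) + 1 - 2 * (((p + 1 : ℕ) : ℚ) + 1) - 2) *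
                cc N (p + 1 + 1) ^ 2 * (cc N (p + 1) ^ 2) := by ring
            rw [r1, r3]
            calc _ ≤ _ := q1
              _ = _ := r2
              _ ≤ _ := q2
          have := mul_le_mul_of_nonneg_left hA (show 0 ≤ (((p + 1 : ℕ) : ℚ) + 1 - 1) ^ 2 by
            positivity)
          nlinarith [this]
        have al := alg_logc (((p + 1 : ℕ) : ℚ) + 1) ((N : ℚ) + 1 - 2 * (((p + 1 : ℕ) : ℚ) + 1))
          (cc N (p + 1)) (cc N (p + 1 + 1)) (cc N (p + 1 + 2)) (cc N p)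
          (by linarith) hE hx hy h1 h2 h3
        have key : ((N : ℚ) + 1) ^ 2 * (cc (N + 1) (p + 1) * cc (N + 1) (p + 1 + 2)) ≤
            ((N : ℚ) + 1) ^ 2 * (cc (N + 1) (p + 1 + 1) ^ 2) := by
          have l1 : ((N : ℚ) + 1) ^ 2 * (cc (N + 1) (p + 1) * cc (N + 1) (p + 1 + 2)) =
            (((N : ℚ) + 1) * cc (N + 1) (p + 1 + 1 + 1)) *
              (((N : ℚ) + 1) * cc (N + 1) (p + 1)) := by ring
          have l2 : ((N : ℚ) + 1) ^ 2 * (cc (N + 1) (p + 1 + 1) ^ 2) =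
            (((N : ℚ) + 1) * cc (N + 1) (p + 1 + 1)) ^ 2 := by ring
          rw [l1, l2, e0, e1, e2]
          refine le_trans (le_of_eq ?_) (le_trans al (le_of_eq ?_))
          · push_cast; ring
          · push_cast; ring
        exact le_of_mul_le_mul_left key (by positivity)

/-- Comparison of the ratios `c (m+1) / c m` for `N` and `N + 1`. -/
lemma cc_step (N m : ℕ) (h : 2 * (m + 1) ≤ N) :
    ((N : ℚ) - 2 * ((m : ℚ) + 1) + 1) * (cc (N + 1) m * cc N (m + 1)) ≤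
      ((N : ℚ) - 2 * ((m : ℚ) + 1) + 2) * (cc (N + 1) (m + 1) * cc N m) := by
  have hN : (0 : ℚ) < (N : ℚ) + 1 := by positivity
  have e1 := cc_succ_succ N m (by omega)
  have hx : 0 < cc N m := cc_pos N m (by omega)
  have hy : 0 < cc N (m + 1) := cc_pos N (m + 1) (by omega)
  have hD : (0 : ℚ) ≤ (N : ℚ) - 2 * ((m : ℚ) + 1) := by
    have : (2 * (m + 1 : ℕ) : ℚ) ≤ ((N : ℕ) : ℚ) := by exact_mod_cast h
    push_cast at this; linarith
  have hm : (0 : ℚ) ≤ (m : ℚ) := by positivity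
  have hl := cc_lower N m h
  -- set D
  obtain ⟨D, hDd⟩ : ∃ D : ℚ, D = (N : ℚ) - 2 * ((m : ℚ) + 1) := ⟨_, rfl⟩
  have hNN : (N : ℚ) = D + 2 * ((m : ℚ) + 1) := by rw [hDd]; ring
  rw [← hDd] at hD ⊢
  -- an upper bound for (N+1) c' m
  have hup : ∃ t : ℚ, ((N : ℚ) + 1) * cc (N + 1) m =
      (D + 3) * ((m : ℚ) + 1) * cc N m + 4 * (m : ℚ) ^ 2 * t ∧
      (m : ℚ) ^ 2 * (t * cc N (m + 1)) ≤ (m : ℚ) ^ 2 * cc N m ^ 2 := by
    rcases Nat.eq_zero_or_pos m with hm0 | hm0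
    · subst hm0
      refine ⟨0, ?_, by simp⟩
      rw [cc_zero_right, cc_zero_right, hNN]
      push_cast; ring
    · obtain ⟨p, rfl⟩ : ∃ p, m = p + 1 := ⟨m - 1, by omega⟩
      refine ⟨cc N p, ?_, ?_⟩
      · rw [cc_succ_succ N p (by omega), hNN]
        push_cast; ring
      · exact mul_le_mul_of_nonneg_left (cc_logc N p (by omega)) (by positivity)
  obtain ⟨t, ht1, ht2⟩ := hup
  have key : ((N : ℚ) + 1) * ((D + 1) * (cc (N + 1) m * cc N (m + 1))) ≤
      ((N : ℚ) + 1) * ((D + 2) * (cc (N + 1) (m + 1) * cc N m)) := by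
    have l1 : ((N : ℚ) + 1) * ((D + 1) * (cc (N + 1) m * cc N (m + 1))) =
      (D + 1) * (((N : ℚ) + 1) * cc (N + 1) m) * cc N (m + 1) := by ring
    have l2 : ((N : ℚ) + 1) * ((D + 2) * (cc (N + 1) (m + 1) * cc N m)) =
      (D + 2) * (((N : ℚ) + 1) * cc (N + 1) (m + 1)) * cc N m := by ring
    rw [l1, l2, ht1, e1]
    have e3 : (N : ℚ) + 1 - 2 * ((m : ℚ) + 1) = D + 1 := by rw [hDd]; ring
    rw [e3]
    have e4 : 3 * ((m : ℚ) + 1) - (N : ℚ) = (m : ℚ) + 1 - D := by rw [hNN]; ring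
    rw [e4] at hl
    have i1 := mul_le_mul_of_nonneg_left ht2 (show (0 : ℚ) ≤ 4 * (D + 1) by linarith)
    -- M = m+1
    by_cases hc : (m : ℚ) + 1 ≤ D + 2
    · have i2 : 0 ≤ (D + 1) * (D + 2 - ((m : ℚ) + 1)) * (cc N m * cc N (m + 1)) :=
        mul_nonneg (mul_nonneg (by linarith) (by linarith)) (by positivity)
      have i3 : 0 ≤ 4 * (((m : ℚ) + 1) ^ 2 + (D + 1) * (2 * (m : ℚ) + 1)) * cc N m ^ 2 := by
        positivity
      nlinarith [i1, i2, i3]
    · have hc' : D + 2 < (m : ℚ) + 1 := not_le.mp hc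
      have i2 : (D + 1) * ((m : ℚ) + 1 - D - 2) * (cc N (m + 1) * cc N m) ≤
          (D + 1) * (8 * ((m : ℚ) + 1) * cc N m) * cc N m := by
        have s1 : ((m : ℚ) + 1 - D - 2) * cc N (m + 1) ≤ 8 * ((m : ℚ) + 1) * cc N m := by
          nlinarith [hl, hy]
        have := mul_le_mul_of_nonneg_left s1 (show (0 : ℚ) ≤ (D + 1) * cc N m by positivity)
        nlinarith [this]
      have i3 : 0 ≤ 4 * (((m : ℚ) + 1) ^ 2 - (D + 1)) * cc N m ^ 2 := by
        have : 0 ≤ ((m : ℚ) + 1) ^ 2 - (D + 1) := by nlinarith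
        positivity
      nlinarith [i1, i2, i3]
  exact le_of_mul_le_mul_left key hN

end Pool.Agent.Helper91.BE
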