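import Pool.Agent.Helper91.BE.Defs

set_option autoImplicit false

namespace Pool.Agent.Helper91.BE

open BTree

namespace BTree

/-- The number of left edges. -/
def leftEdges : BTree → ℕ
  | leaf _ => 0
  | onlyLeft _ t => t.leftEdges + 1
  | onlyRight _ t => t.leftEdges
  | both _ _ l r => l.leftEdges + r.leftEdges + 1

/-- The number of vertices with two children. -/
def twos : BTree → ℕ
  | leaf _ => 0
  | onlyLeft _ t => t.twos
  | onlyRight _ t => t.twos
  | both _ _ l r => l.twos + r.twos + 1

lemma twos_le_right (t : BTree) : t.twos ≤ t.rightEdges := by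
  induction t with
  | leaf v => simp [twos, rightEdges]
  | onlyLeft v t ih => simpa [twos, rightEdges] using ih
  | onlyRight v t ih => simp [twos, rightEdges]; omega
  | both v c l r ihl ihr => simp [twos, rightEdges]; omega

lemma twos_le_left (t : BTree) : t.twos ≤ t.leftEdges := by
  induction t with
  | leaf v => simp [twos, leftEdges]
  | onlyLeft v t ih => simp [twos, leftEdges]; omega
  | onlyRight v t ih => simpa [twos, leftEdges] using ih
  | both v c l r ihl ihr => simp [twos, leftEdges]; omega

lemma root_mem (t : BTree) : t.root ∈ t.labels := by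
  cases t <;> simp [root, labels]

/-- All ways of adding a new leaf with label `a`. -/
def ins (a : ℕ) : BTree → List BTree
  | leaf v => [onlyLeft v (leaf a), onlyRight v (leaf a)]
  | onlyLeft v t => (ins a t).map (onlyLeft v) ++
      [both v false t (leaf a), both v true t (leaf a)]
  | onlyRight v t => (ins a t).map (onlyRight v) ++
      [both v false (leaf a) t, both v true (leaf a) t]
  | both v c l r => (ins a l).map (fun l' => both v c l' r) ++
      (ins a r).map (fun r' => both v c l r')

lemma ins_labels (a : ℕ) (t : BTree) : ∀ s ∈ ins a t, s.labels = a ::ₘ t.labels := by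
  induction t with
  | leaf v =>
    intro s hs
    simp only [ins, List.mem_cons, List.not_mem_nil, or_false] at hs
    rcases hs with rfl | rfl <;> simp only [labels] <;> exact Multiset.cons_swap _ _ 0
  | onlyLeft v t ih =>
    intro s hs
    simp only [ins, List.mem_append, List.mem_map, List.mem_cons, List.not_mem_nil,
      or_false] at hs
    rcases hs with ⟨s', hs', rfl⟩ | rfl | rfl
    · simp only [labels, ih s' hs']; exact Multiset.cons_swap _ _ _
    · simp only [labels]
      rw [add_comm, Multiset.singleton_add]; exact Multiset.cons_swap _ _ _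
    · simp only [labels]
      rw [add_comm, Multiset.singleton_add]; exact Multiset.cons_swap _ _ _
  | onlyRight v t ih =>
    intro s hs
    simp only [ins, List.mem_append, List.mem_map, List.mem_cons, List.not_mem_nil,
      or_false] at hs
    rcases hs with ⟨s', hs', rfl⟩ | rfl | rfl
    · simp only [labels, ih s' hs']; exact Multiset.cons_swap _ _ _
    · simp only [labels]
      rw [Multiset.singleton_add]; exact Multiset.cons_swap _ _ _
    · simp only [labels]
      rw [Multiset.singleton_add]; exact Multiset.cons_swap _ _ _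
  | both v c l r ihl ihr =>
    intro s hs
    simp only [ins, List.mem_append, List.mem_map] at hs
    rcases hs with ⟨s', hs', rfl⟩ | ⟨s', hs', rfl⟩
    · simp only [labels, ihl s' hs', Multiset.cons_add]; exact Multiset.cons_swap _ _ _
    · simp only [labels, ihr s' hs', Multiset.add_cons]; exact Multiset.cons_swap _ _ _

lemma ins_root (a : ℕ) (t : BTree) : ∀ s ∈ ins a t, s.root = t.root := by
  cases t with
  | leaf v =>
    intro s hs
    simp only [ins, List.mem_cons, List.not_mem_nil, or_false] at hs
    rcases hs with rfl | rfl <;> rfl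
  | onlyLeft v t =>
    intro s hs
    simp only [ins, List.mem_append, List.mem_map, List.mem_cons, List.not_mem_nil,
      or_false] at hs
    rcases hs with ⟨s', hs', rfl⟩ | rfl | rfl <;> rfl
  | onlyRight v t =>
    intro s hs
    simp only [ins, List.mem_append, List.mem_map, List.mem_cons, List.not_mem_nil,
      or_false] at hs
    rcases hs with ⟨s', hs', rfl⟩ | rfl | rfl <;> rfl
  | both v c l r =>
    intro s hs
    simp only [ins, List.mem_append, List.mem_map] at hs
    rcases hs with ⟨s', hs', rfl⟩ | ⟨s', hs', rfl⟩ <;> rfl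

lemma ins_decreasing (a : ℕ) (t : BTree) (ht : t.Decreasing) (ha : ∀ x ∈ t.labels, a < x) :
    ∀ s ∈ ins a t, s.Decreasing := by
  induction t with
  | leaf v =>
    intro s hs
    have hv : a < v := ha v (by simp [labels])
    simp only [ins, List.mem_cons, List.not_mem_nil, or_false] at hs
    rcases hs with rfl | rfl <;> simp [Decreasing, root, hv]
  | onlyLeft v t ih =>
    intro s hs
    have hv : a < v := ha v (by simp [labels])
    have hat : ∀ x ∈ t.labels, a < x := fun x hx => ha x (by simp [labels, hx])
    simp only [ins, List.mem_append, List.mem_map, List.mem_cons, List.not_mem_nil,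
      or_false] at hs
    rcases hs with ⟨s', hs', rfl⟩ | rfl | rfl
    · exact ⟨by rw [ins_root a t s' hs']; exact ht.1, ih ht.2 hat s' hs'⟩
    · exact ⟨ht.1, hv, ht.2, trivial⟩
    · exact ⟨ht.1, hv, ht.2, trivial⟩
  | onlyRight v t ih =>
    intro s hs
    have hv : a < v := ha v (by simp [labels])
    have hat : ∀ x ∈ t.labels, a < x := fun x hx => ha x (by simp [labels, hx])
    simp only [ins, List.mem_append, List.mem_map, List.mem_cons, List.not_mem_nil,
      or_false] at hs
    rcases hs with ⟨s', hs', rfl⟩ | rfl | rfl
    · exact ⟨by rw [ins_root a t s' hs']; exact ht.1, ih ht.2 hat s' hs'⟩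
    · exact ⟨hv, ht.1, trivial, ht.2⟩
    · exact ⟨hv, ht.1, trivial, ht.2⟩
  | both v c l r ihl ihr =>
    intro s hs
    have hal : ∀ x ∈ l.labels, a < x := fun x hx => ha x (by simp [labels, hx])
    have har : ∀ x ∈ r.labels, a < x := fun x hx => ha x (by simp [labels, hx])
    obtain ⟨h1, h2, h3, h4⟩ := ht
    simp only [ins, List.mem_append, List.mem_map] at hs
    rcases hs with ⟨s', hs', rfl⟩ | ⟨s', hs', rfl⟩
    · exact ⟨by rw [ins_root a l s' hs']; exact h1, h2, ihl h3 hal s' hs', h4⟩
    · exact ⟨h1, by rw [ins_root a r s' hs']; exact h2, h3, ihr h4 har s' hs'⟩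

lemma labels_card_pos (t : BTree) : 0 < t.labels.card :=
  Multiset.card_pos.2 (fun h => by have := root_mem t; rw [h] at this; simp at this)

lemma eq_leaf_of_labels (t : BTree) (a : ℕ) (h : t.labels = {a}) : t = leaf a := by
  cases t with
  | leaf v => simp only [labels, Multiset.singleton_inj] at h; rw [h]
  | onlyLeft v t =>
    exfalso
    have h1 := congrArg Multiset.card h
    have := labels_card_pos t
    simp only [labels, Multiset.card_cons, Multiset.card_singleton] at h1
    omega
  | onlyRight v t =>
    exfalso
    have h1 := congrArg Multiset.card h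
    have := labels_card_pos t
    simp only [labels, Multiset.card_cons, Multiset.card_singleton] at h1
    omega
  | both v c l r =>
    exfalso
    have h1 := congrArg Multiset.card h
    have := labels_card_pos l
    simp only [labels, Multiset.card_cons, Multiset.card_singleton, Multiset.card_add] at h1
    omega

/-- Every decreasing tree arises by adding its smallest label as a new leaf. -/
lemma exists_ins (a : ℕ) (s : BTree) : ∀ S : Multiset ℕ, s.Decreasing → s.labels = a ::ₘ S →
    S ≠ 0 → (∀ x ∈ S, a < x) → ∃ t : BTree, t.Decreasing ∧ t.labels = S ∧ s ∈ ins a t := by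
  induction s with
  | leaf v =>
    intro S _ h hS _
    exfalso
    have h1 := congrArg Multiset.card h
    have : 0 < S.card := Multiset.card_pos.2 hS
    simp [labels] at h1
    exact hS h1
  | onlyLeft v t ih =>
    intro S hd h hS ha
    simp only [labels] at h
    -- v ≠ a
    have hroot : t.root ∈ a ::ₘ S := by
      rw [← h]; exact Multiset.mem_cons_of_mem (root_mem t)
    have hva : v ≠ a := by
      intro e
      have h1 : t.root < v := hd.1
      rcases Multiset.mem_cons.1 hroot with h2 | h2
      · omega
      · have := ha _ h2; omega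
    obtain ⟨h1, S', h2, h3⟩ : v ≠ a ∧ ∃ cs, t.labels = a ::ₘ cs ∧ S = v ::ₘ cs := by
      rcases Multiset.cons_eq_cons.1 h with ⟨e, _⟩ | h4
      · exact absurd e hva
      · exact h4
    by_cases hS' : S' = 0
    · subst hS'
      have ht : t = leaf a := eq_leaf_of_labels t a (by rw [h2]; rfl)
      subst ht
      exact ⟨leaf v, trivial, by rw [h3]; rfl, by simp [ins]⟩
    · obtain ⟨t', ht1, ht2, ht3⟩ := ih S' hd.2 h2 hS'
        (fun x hx => ha x (by rw [h3]; exact Multiset.mem_cons_of_mem hx))
      refine ⟨onlyLeft v t', ⟨?_, ht1⟩, ?_, ?_⟩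
      · rw [← ins_root a t' t ht3]; exact hd.1
      · rw [h3]; simp [labels, ht2]
      · simp only [ins, List.mem_append, List.mem_map]
        exact Or.inl ⟨t, ht3, rfl⟩
  | onlyRight v t ih =>
    intro S hd h hS ha
    simp only [labels] at h
    have hroot : t.root ∈ a ::ₘ S := by
      rw [← h]; exact Multiset.mem_cons_of_mem (root_mem t)
    have hva : v ≠ a := by
      intro e
      have h1 : t.root < v := hd.1
      rcases Multiset.mem_cons.1 hroot with h2 | h2
      · omega
      · have := ha _ h2; omega
    obtain ⟨h1, S', h2, h3⟩ : v ≠ a ∧ ∃ cs, t.labels = a ::ₘ cs ∧ S = v ::ₘ cs := by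
      rcases Multiset.cons_eq_cons.1 h with ⟨e, _⟩ | h4
      · exact absurd e hva
      · exact h4
    by_cases hS' : S' = 0
    · subst hS'
      have ht : t = leaf a := eq_leaf_of_labels t a (by rw [h2]; rfl)
      subst ht
      exact ⟨leaf v, trivial, by rw [h3]; rfl, by simp [ins]⟩
    · obtain ⟨t', ht1, ht2, ht3⟩ := ih S' hd.2 h2 hS'
        (fun x hx => ha x (by rw [h3]; exact Multiset.mem_cons_of_mem hx))
      refine ⟨onlyRight v t', ⟨?_, ht1⟩, ?_, ?_⟩
      · rw [← ins_root a t' t ht3]; exact hd.1
      · rw [h3]; simp [labels, ht2]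
      · simp only [ins, List.mem_append, List.mem_map]
        exact Or.inl ⟨t, ht3, rfl⟩
  | both v c l r ihl ihr =>
    intro S hd h hS ha
    obtain ⟨d1, d2, d3, d4⟩ := hd
    simp only [labels] at h
    have hroot : l.root ∈ a ::ₘ S := by
      rw [← h]; exact Multiset.mem_cons_of_mem (Multiset.mem_add.2 (Or.inl (root_mem l)))
    have hva : v ≠ a := by
      intro e
      rcases Multiset.mem_cons.1 hroot with h2 | h2
      · omega
      · have := ha _ h2; omega
    obtain ⟨h1, S', h2, h3⟩ : v ≠ a ∧ ∃ cs, l.labels + r.labels = a ::ₘ cs ∧ S = v ::ₘ cs := by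
      rcases Multiset.cons_eq_cons.1 h with ⟨e, _⟩ | h4
      · exact absurd e hva
      · exact h4
    have haS' : ∀ x ∈ S', a < x := fun x hx => ha x (by rw [h3]; exact Multiset.mem_cons_of_mem hx)
    have hmem : a ∈ l.labels ∨ a ∈ r.labels := by
      rw [← Multiset.mem_add, h2]; exact Multiset.mem_cons_self a S'
    rcases hmem with hm | hm
    · obtain ⟨L', hL'⟩ := Multiset.exists_cons_of_mem hm
      have hS'' : S' = L' + r.labels := by
        rw [hL', Multiset.cons_add] at h2
        exact ((Multiset.cons_inj_right a).1 h2).symm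
      by_cases hL0 : L' = 0
      · subst hL0
        have hl : l = leaf a := eq_leaf_of_labels l a (by rw [hL']; rfl)
        subst hl
        refine ⟨onlyRight v r, ⟨d2, d4⟩, ?_, ?_⟩
        · rw [h3, hS'']; simp [labels]
        · simp only [ins, List.mem_append, List.mem_map, List.mem_cons, List.not_mem_nil,
            or_false]
          cases c
          · exact Or.inr (Or.inl rfl)
          · exact Or.inr (Or.inr rfl)
      · obtain ⟨t', ht1, ht2, ht3⟩ := ihl L' d3 hL' hL0
          (fun x hx => haS' x (by rw [hS'']; exact Multiset.mem_add.2 (Or.inl hx)))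
        refine ⟨both v c t' r, ⟨?_, d2, ht1, d4⟩, ?_, ?_⟩
        · rw [← ins_root a t' l ht3]; exact d1
        · rw [h3, hS'']; simp [labels, ht2]
        · simp only [ins, List.mem_append, List.mem_map]
          exact Or.inl ⟨l, ht3, rfl⟩
    · obtain ⟨R', hR'⟩ := Multiset.exists_cons_of_mem hm
      have hS'' : S' = l.labels + R' := by
        rw [hR', Multiset.add_cons] at h2
        exact ((Multiset.cons_inj_right a).1 h2).symm
      by_cases hR0 : R' = 0
      · subst hR0
        have hr : r = leaf a := eq_leaf_of_labels r a (by rw [hR']; rfl)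
        subst hr
        refine ⟨onlyLeft v l, ⟨d1, d3⟩, ?_, ?_⟩
        · rw [h3, hS'']; simp [labels]
        · simp only [ins, List.mem_append, List.mem_map, List.mem_cons, List.not_mem_nil,
            or_false]
          cases c
          · exact Or.inr (Or.inl rfl)
          · exact Or.inr (Or.inr rfl)
      · obtain ⟨t', ht1, ht2, ht3⟩ := ihr R' d4 hR' hR0
          (fun x hx => haS' x (by rw [hS'']; exact Multiset.mem_add.2 (Or.inr hx)))
        refine ⟨both v c l t', ⟨d1, ?_, d3, ht1⟩, ?_, ?_⟩
        · rw [← ins_root a t' r ht3]; exact d2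
        · rw [h3, hS'']; simp [labels, ht2]
        · simp only [ins, List.mem_append, List.mem_map]
          exact Or.inr ⟨r, ht3, rfl⟩

lemma leaf_not_mem_ins (a b : ℕ) (t : BTree) : leaf b ∉ ins a t := by
  intro h
  have h1 := ins_labels a t _ h
  have h2 := congrArg Multiset.card h1
  have := labels_card_pos t
  simp only [labels, Multiset.card_cons, Multiset.card_singleton] at h2
  omega

lemma mem_labels_of_ins (a : ℕ) (t s : BTree) (h : s ∈ ins a t) : a ∈ s.labels := by
  rw [ins_labels a t s h]; exact Multiset.mem_cons_self _ _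

/-- The tree before the insertion is determined. -/
lemma ins_unique (a : ℕ) (s : BTree) : ∀ t t' : BTree, a ∉ t.labels → a ∉ t'.labels →
    s ∈ ins a t → s ∈ ins a t' → t = t' := by
  induction s with
  | leaf v => intro t t' _ _ h _; exact absurd h (leaf_not_mem_ins _ _ _)
  | onlyLeft v u ih =>
    intro t t' ht ht' h h'
    cases t with
    | leaf w =>
      simp only [ins, List.mem_cons, List.not_mem_nil, or_false, reduceCtorEq,
        onlyLeft.injEq] at h
      obtain ⟨rfl, rfl⟩ := h
      cases t' with
      | leaf w' =>
        simp only [ins, List.mem_cons, List.not_mem_nil, or_false, reduceCtorEq,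
          onlyLeft.injEq, and_true] at h'
        rw [h']
      | onlyLeft w' t'' =>
        simp only [ins, List.mem_append, List.mem_map, List.mem_cons, List.not_mem_nil,
          or_false, reduceCtorEq, onlyLeft.injEq] at h'
        obtain ⟨x, hx, _, rfl⟩ := h'
        exact absurd hx (leaf_not_mem_ins _ _ _)
      | onlyRight w' t'' =>
        simp [ins] at h'
      | both w' c l r =>
        simp [ins] at h'
    | onlyLeft w t2 =>
      simp only [ins, List.mem_append, List.mem_map, List.mem_cons, List.not_mem_nil,
          or_false, reduceCtorEq, onlyLeft.injEq] at h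
      obtain ⟨x, hx, rfl, rfl⟩ := h
      cases t' with
      | leaf w' =>
        simp only [ins, List.mem_cons, List.not_mem_nil, or_false, reduceCtorEq,
          onlyLeft.injEq] at h'
        obtain ⟨_, rfl⟩ := h'
        exact absurd hx (leaf_not_mem_ins _ _ _)
      | onlyLeft w' t'' =>
        simp only [ins, List.mem_append, List.mem_map, List.mem_cons, List.not_mem_nil,
          or_false, reduceCtorEq, onlyLeft.injEq] at h'
        obtain ⟨y, hy, rfl, rfl⟩ := h'
        rw [ih t2 t'' (fun hh => ht (by simp [labels, hh])) (fun hh => ht' (by simp [labels, hh]))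
          hx hy]
      | onlyRight w' t'' =>
        simp [ins] at h'
      | both w' c l r =>
        simp [ins] at h'
    | onlyRight w t2 => simp [ins] at h
    | both w c l r => simp [ins] at h
  | onlyRight v u ih =>
    intro t t' ht ht' h h'
    cases t with
    | leaf w =>
      simp only [ins, List.mem_cons, List.not_mem_nil, or_false, reduceCtorEq, false_or,
        onlyRight.injEq] at h
      obtain ⟨rfl, rfl⟩ := h
      cases t' with
      | leaf w' =>
        simp only [ins, List.mem_cons, List.not_mem_nil, or_false, reduceCtorEq, false_or,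
          onlyRight.injEq, and_true] at h'
        rw [h']
      | onlyRight w' t'' =>
        simp only [ins, List.mem_append, List.mem_map, List.mem_cons, List.not_mem_nil,
          or_false, reduceCtorEq, onlyRight.injEq] at h'
        obtain ⟨x, hx, _, rfl⟩ := h'
        exact absurd hx (leaf_not_mem_ins _ _ _)
      | onlyLeft w' t'' =>
        simp [ins] at h'
      | both w' c l r =>
        simp [ins] at h'
    | onlyRight w t2 =>
      simp only [ins, List.mem_append, List.mem_map, List.mem_cons, List.not_mem_nil,
          or_false, reduceCtorEq, onlyRight.injEq] at h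
      obtain ⟨x, hx, rfl, rfl⟩ := h
      cases t' with
      | leaf w' =>
        simp only [ins, List.mem_cons, List.not_mem_nil, or_false, reduceCtorEq, false_or,
          onlyRight.injEq] at h'
        obtain ⟨_, rfl⟩ := h'
        exact absurd hx (leaf_not_mem_ins _ _ _)
      | onlyRight w' t'' =>
        simp only [ins, List.mem_append, List.mem_map, List.mem_cons, List.not_mem_nil,
          or_false, reduceCtorEq, onlyRight.injEq] at h'
        obtain ⟨y, hy, rfl, rfl⟩ := h'
        rw [ih t2 t'' (fun hh => ht (by simp [labels, hh])) (fun hh => ht' (by simp [labels, hh]))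
          hx hy]
      | onlyLeft w' t'' =>
        simp [ins] at h'
      | both w' c l r =>
        simp [ins] at h'
    | onlyLeft w t2 => simp [ins] at h
    | both w c l r => simp [ins] at h
  | both v c u1 u2 ih1 ih2 =>
    -- a description of the possible origins
    have key : ∀ t : BTree, a ∉ t.labels → both v c u1 u2 ∈ ins a t →
        (u1 = leaf a ∧ t = onlyRight v u2) ∨ (u2 = leaf a ∧ t = onlyLeft v u1) ∨
        (∃ x, t = both v c x u2 ∧ u1 ∈ ins a x ∧ a ∉ x.labels ∧ a ∉ u2.labels) ∨
        (∃ x, t = both v c u1 x ∧ u2 ∈ ins a x ∧ a ∉ x.labels ∧ a ∉ u1.labels) := by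
      intro t ht h
      cases t with
      | leaf w => simp [ins] at h
      | onlyLeft w t2 =>
        simp only [ins, List.mem_append, List.mem_map, List.mem_cons, List.not_mem_nil,
          or_false, reduceCtorEq, both.injEq, and_false, exists_false, false_or] at h
        rcases h with ⟨rfl, _, rfl, rfl⟩ | ⟨rfl, _, rfl, rfl⟩
        · exact Or.inr (Or.inl ⟨rfl, rfl⟩)
        · exact Or.inr (Or.inl ⟨rfl, rfl⟩)
      | onlyRight w t2 =>
        simp only [ins, List.mem_append, List.mem_map, List.mem_cons, List.not_mem_nil,
          or_false, reduceCtorEq, both.injEq, and_false, exists_false, false_or] at h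
        rcases h with ⟨rfl, _, rfl, rfl⟩ | ⟨rfl, _, rfl, rfl⟩
        · exact Or.inl ⟨rfl, rfl⟩
        · exact Or.inl ⟨rfl, rfl⟩
      | both w d l r =>
        simp only [ins, List.mem_append, List.mem_map, both.injEq] at h
        have hl : a ∉ l.labels := fun hh => ht (by simp [labels, hh])
        have hr : a ∉ r.labels := fun hh => ht (by simp [labels, hh])
        rcases h with ⟨x, hx, rfl, rfl, rfl, rfl⟩ | ⟨x, hx, rfl, rfl, rfl, rfl⟩
        · exact Or.inr (Or.inr (Or.inl ⟨l, rfl, hx, hl, hr⟩))
        · exact Or.inr (Or.inr (Or.inr ⟨r, rfl, hx, hr, hl⟩))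
    intro t t' ht ht' h h'
    rcases key t ht h with ⟨e1, e2⟩ | ⟨e1, e2⟩ | ⟨x, e1, e2, e3, e4⟩ | ⟨x, e1, e2, e3, e4⟩ <;>
    rcases key t' ht' h' with ⟨f1, f2⟩ | ⟨f1, f2⟩ | ⟨y, f1, f2, f3, f4⟩ | ⟨y, f1, f2, f3, f4⟩
    · rw [e2, f2]
    · exfalso; apply ht; rw [e2, f1]; simp [labels]
    · rw [e1] at f2; exact absurd f2 (leaf_not_mem_ins _ _ _)
    · exfalso; apply f4; rw [e1]; simp [labels]
    · exfalso; apply ht'; rw [f2, e1]; simp [labels]
    · rw [e2, f2]
    · exfalso; apply f4; rw [e1]; simp [labels]
    · rw [e1] at f2; exact absurd f2 (leaf_not_mem_ins _ _ _)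
    · rw [f1] at e2; exact absurd e2 (leaf_not_mem_ins _ _ _)
    · exfalso; apply e4; rw [f1]; simp [labels]
    · rw [e1, f1, ih1 x y e3 f3 e2 f2]
    · exact absurd (mem_labels_of_ins _ _ _ e2) f4
    · exfalso; apply e4; rw [f1]; simp [labels]
    · rw [f1] at e2; exact absurd e2 (leaf_not_mem_ins _ _ _)
    · exact absurd (mem_labels_of_ins _ _ _ e2) f4
    · rw [e1, f1, ih2 x y e3 f3 e2 f2]

lemma ins_nodup (a : ℕ) (t : BTree) (ha : a ∉ t.labels) : (ins a t).Nodup := by
  induction t with
  | leaf v => simp [ins]
  | onlyLeft v t ih =>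
    have h1 := ih (fun hh => ha (by simp [labels, hh]))
    simp only [ins]
    refine List.Nodup.append (h1.map (fun x y h => by simpa using h)) (by simp) ?_
    intro x hx hy
    simp only [List.mem_map, List.mem_cons, List.not_mem_nil, or_false] at hx hy
    obtain ⟨z, _, rfl⟩ := hx
    rcases hy with h | h <;> cases h
  | onlyRight v t ih =>
    have h1 := ih (fun hh => ha (by simp [labels, hh]))
    simp only [ins]
    refine List.Nodup.append (h1.map (fun x y h => by simpa using h)) (by simp) ?_
    intro x hx hy
    simp only [List.mem_map, List.mem_cons, List.not_mem_nil, or_false] at hx hy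
    obtain ⟨z, _, rfl⟩ := hx
    rcases hy with h | h <;> cases h
  | both v c l r ihl ihr =>
    have hl : a ∉ l.labels := fun hh => ha (by simp [labels, hh])
    have hr : a ∉ r.labels := fun hh => ha (by simp [labels, hh])
    simp only [ins]
    refine List.Nodup.append ((ihl hl).map (fun x y h => by simpa using h))
      ((ihr hr).map (fun x y h => by simpa using h)) ?_
    intro x hx hy
    simp only [List.mem_map] at hx hy
    obtain ⟨z, hz, rfl⟩ := hx
    obtain ⟨z', hz', h⟩ := hy
    simp only [both.injEq, true_and] at h
    obtain ⟨h1, _⟩ := h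
    rw [← h1] at hz
    exact hl (mem_labels_of_ins _ _ _ hz)

/-! ### Enumeration of all decreasing trees with given labels -/

/-- All decreasing trees with the labels of an increasing list. -/
def trees : List ℕ → List BTree
  | [] => []
  | [v] => [leaf v]
  | (a :: b :: S) => (trees (b :: S)).flatMap (ins a)

lemma mem_trees : ∀ L : List ℕ, L ≠ [] → L.Pairwise (· < ·) → ∀ s : BTree,
    s ∈ trees L ↔ (s.labels = (L : Multiset ℕ) ∧ s.Decreasing)
  | [], h, _, _ => absurd rfl h
  | [v], _, _, s => by
      simp only [trees, List.mem_singleton]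
      constructor
      · rintro rfl; exact ⟨rfl, trivial⟩
      · rintro ⟨h, _⟩; exact eq_leaf_of_labels s v h
  | (a :: b :: S), _, hp, s => by
      have hp' : (b :: S).Pairwise (· < ·) := (List.pairwise_cons.1 hp).2
      have hlt : ∀ x ∈ (b :: S), a < x := (List.pairwise_cons.1 hp).1
      have ih := mem_trees (b :: S) (by simp) hp'
      simp only [trees, List.mem_flatMap]
      constructor
      · rintro ⟨t, ht, hs⟩
        obtain ⟨h1, h2⟩ := (ih t).1 ht
        refine ⟨?_, ins_decreasing a t h2 ?_ s hs⟩
        · rw [ins_labels a t s hs, h1]; rfl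
        · intro x hx; rw [h1] at hx; exact hlt x hx
      · rintro ⟨h1, h2⟩
        obtain ⟨t, ht1, ht2, ht3⟩ := exists_ins a s ((b :: S : List ℕ) : Multiset ℕ) h2
          (by rw [h1]; rfl) (by simp) (fun x hx => hlt x hx)
        exact ⟨t, (ih t).2 ⟨ht2, ht1⟩, ht3⟩

lemma nodup_trees : ∀ L : List ℕ, L.Pairwise (· < ·) → (trees L).Nodup
  | [], _ => by simp [trees]
  | [v], _ => by simp [trees]
  | (a :: b :: S), hp => by
      have hp' : (b :: S).Pairwise (· < ·) := (List.pairwise_cons.1 hp).2
      have hlt : ∀ x ∈ (b :: S), a < x := (List.pairwise_cons.1 hp).1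
      have ih := nodup_trees (b :: S) hp'
      have hna : ∀ t ∈ trees (b :: S), a ∉ t.labels := by
        intro t ht h
        rw [((mem_trees (b :: S) (by simp) hp' t).1 ht).1] at h
        exact lt_irrefl _ (hlt a h)
      rw [trees, List.nodup_flatMap]
      refine ⟨fun t ht => ins_nodup a t (hna t ht), ?_⟩
      refine List.Pairwise.imp_of_mem ?_ ih
      intro t t' ht ht' hne s hs hs'
      exact hne (ins_unique a s t t' (hna t ht) (hna t' ht') hs hs')

/-- The effect of an insertion on the statistics (right edges, left edges, vertices with two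
children). -/
lemma sum_ins (a : ℕ) (t : BTree) : ∀ g : ℕ → ℕ → ℕ → ℚ,
    ((ins a t).map (fun s => g s.rightEdges s.leftEdges s.twos)).sum =
      ((t.twos : ℚ) + 1) * (g t.rightEdges (t.leftEdges + 1) t.twos +
        g (t.rightEdges + 1) t.leftEdges t.twos) +
      2 * ((t.rightEdges : ℚ) - t.twos) * g t.rightEdges (t.leftEdges + 1) (t.twos + 1) +
      2 * ((t.leftEdges : ℚ) - t.twos) * g (t.rightEdges + 1) t.leftEdges (t.twos + 1) := by
  induction t with
  | leaf v => intro g; simp [ins, rightEdges, leftEdges, twos]
  | onlyLeft v t ih =>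
    intro g
    have h := ih (fun x y z => g x (y + 1) z)
    simp only [ins, List.map_append, List.map_map, List.sum_append, List.map_cons, List.map_nil,
      List.sum_cons, List.sum_nil]
    have e : ((fun s : BTree => g s.rightEdges s.leftEdges s.twos) ∘ onlyLeft v) =
      fun s => g s.rightEdges (s.leftEdges + 1) s.twos := by
      funext s; simp [rightEdges, leftEdges, twos]
    rw [e, h]
    simp only [rightEdges, leftEdges, twos, add_zero, zero_add]
    push_cast
    ring
  | onlyRight v t ih =>
    intro g
    have h := ih (fun x y z => g (x + 1) y z)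
    simp only [ins, List.map_append, List.map_map, List.sum_append, List.map_cons, List.map_nil,
      List.sum_cons, List.sum_nil]
    have e : ((fun s : BTree => g s.rightEdges s.leftEdges s.twos) ∘ onlyRight v) =
      fun s => g (s.rightEdges + 1) s.leftEdges s.twos := by
      funext s; simp [rightEdges, leftEdges, twos]
    rw [e, h]
    simp only [rightEdges, leftEdges, twos, add_zero, zero_add]
    push_cast
    ring
  | both v c l r ihl ihr =>
    intro g
    have h1 := ihl (fun x y z => g (x + r.rightEdges + 1) (y + r.leftEdges + 1) (z + r.twos + 1))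
    have h2 := ihr (fun x y z => g (l.rightEdges + x + 1) (l.leftEdges + y + 1) (l.twos + z + 1))
    simp only [ins, List.map_append, List.map_map, List.sum_append]
    have e1 : ((fun s : BTree => g s.rightEdges s.leftEdges s.twos) ∘ fun l' => both v c l' r) =
      fun s => g (s.rightEdges + r.rightEdges + 1) (s.leftEdges + r.leftEdges + 1)
        (s.twos + r.twos + 1) := by
      funext s; simp [rightEdges, leftEdges, twos]
    have e2 : ((fun s : BTree => g s.rightEdges s.leftEdges s.twos) ∘ fun r' => both v c l r') =
      fun s => g (l.rightEdges + s.rightEdges + 1) (l.leftEdges + s.leftEdges + 1)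
        (l.twos + s.twos + 1) := by
      funext s; simp [rightEdges, leftEdges, twos]
    rw [e1, e2, h1, h2]
    simp only [rightEdges, leftEdges, twos]
    have a1 : l.leftEdges + 1 + r.leftEdges + 1 = l.leftEdges + r.leftEdges + 1 + 1 := by ring
    have a2 : l.rightEdges + 1 + r.rightEdges + 1 = l.rightEdges + r.rightEdges + 1 + 1 := by ring
    have a3 : l.twos + 1 + r.twos + 1 = l.twos + r.twos + 1 + 1 := by ring
    have b1 : l.leftEdges + (r.leftEdges + 1) + 1 = l.leftEdges + r.leftEdges + 1 + 1 := by ring
    have b2 : l.rightEdges + (r.rightEdges + 1) + 1 = l.rightEdges + r.rightEdges + 1 + 1 := by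
      ring
    have b3 : l.twos + (r.twos + 1) + 1 = l.twos + r.twos + 1 + 1 := by ring
    rw [a1, a2, a3, b1, b2, b3]
    push_cast
    ring

end BTree

end Pool.Agent.Helper91.BE
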