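import Pool.Agent.Helper91.BE.Main
import Pool.Agent.Helper91.BE.Trees

set_option autoImplicit false

namespace Pool.Agent.Helper91.BE

open Finset BTree

/-! ### The recursion of the weights -/

lemma w_zero_zero : w 0 0 0 = 1 := by simp [w, cc]

lemma w_left_zero (l : ℕ) : w 0 l 0 = 1 := by
  simp [w, cc_zero_right]

lemma w_right_zero (k : ℕ) : w k 0 0 = 1 := by
  simp [w, cc_zero_right]

/-- The recursion in terms of the insertion of a leaf. -/
lemma w_rec (K L m : ℕ) :
    w (K + 1) (L + 1) m = ((m : ℚ) + 1) * (w (K + 1) L m + w K (L + 1) m) +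
      (if m = 0 then 0 else 2 * (((K : ℚ) + 1) - ((m - 1 : ℕ) : ℚ)) * w (K + 1) L (m - 1) +
        2 * (((L : ℚ) + 1) - ((m - 1 : ℕ) : ℚ)) * w K (L + 1) (m - 1)) := by
  have hp : (0 : ℚ) < (K : ℚ) + L + 2 := by positivity
  have hC1 : ((K : ℚ) + L + 2) * ((K + 1 + L).choose L : ℚ) =
      ((L : ℚ) + 1) * ((K + 1 + (L + 1)).choose (L + 1) : ℚ) := by
    have := ch3 (K + 1) L
    push_cast at this
    rw [show K + 1 + (L + 1) = K + 1 + L + 1 by ring]
    linarith
  have hC2 : ((K : ℚ) + L + 2) * ((K + (L + 1)).choose (L + 1) : ℚ) =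
      ((K : ℚ) + 1) * ((K + 1 + (L + 1)).choose (L + 1) : ℚ) := by
    have h1 : ((K + 1 + (L + 1)).choose (L + 1) : ℚ) =
        ((K + (L + 1)).choose L : ℚ) + ((K + (L + 1)).choose (L + 1) : ℚ) := by
      have : (K + 1 + (L + 1)).choose (L + 1) = (K + (L + 1)).choose L +
          (K + (L + 1)).choose (L + 1) := by
        rw [show K + 1 + (L + 1) = (K + (L + 1)) + 1 by ring]
        exact Nat.choose_succ_succ _ _
      exact_mod_cast this
    have h2 := hC1
    rw [show K + 1 + L = K + (L + 1) by ring] at h2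
    rw [h1] at h2 ⊢
    nlinarith [h2]
  have ht := trans_term (K + 1) L m
  push_cast at ht
  -- multiply by K + L + 2
  refine mul_left_cancel₀ hp.ne' ?_
  have b1 := ch2 L m
  have b2 := ch2 K m
  have e0 : ((K : ℚ) + L + 2) * w (K + 1) (L + 1) m =
      ((K + 1 + (L + 1)).choose (L + 1) : ℚ) *
      (((K : ℚ) + 1 + L + 1) * (cc (K + 1 + L + 1) m * ((K + 1).choose m : ℚ) *
        ((L + 1).choose m : ℚ))) := by
    unfold w
    rw [show K + 1 + (L + 1) = K + 1 + L + 1 by ring]; ring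
  have e1 : ((K : ℚ) + L + 2) * w (K + 1) L m =
      ((K + 1 + (L + 1)).choose (L + 1) : ℚ) * cc (K + 1 + L) m * ((K + 1).choose m : ℚ) *
        (((L : ℚ) + 1 - m) * ((L + 1).choose m : ℚ)) := by
    rw [b1]
    unfold w
    calc _ = (((K : ℚ) + L + 2) * ((K + 1 + L).choose L : ℚ)) * cc (K + 1 + L) m *
          ((K + 1).choose m : ℚ) * (L.choose m : ℚ) := by ring
      _ = _ := by rw [hC1]; ring
  have e2 : ((K : ℚ) + L + 2) * w K (L + 1) m =
      ((K + 1 + (L + 1)).choose (L + 1) : ℚ) * cc (K + 1 + L) m * ((L + 1).choose m : ℚ) *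
        (((K : ℚ) + 1 - m) * ((K + 1).choose m : ℚ)) := by
    rw [b2]
    unfold w
    calc _ = (((K : ℚ) + L + 2) * ((K + (L + 1)).choose (L + 1) : ℚ)) * cc (K + (L + 1)) m *
          (K.choose m : ℚ) * ((L + 1).choose m : ℚ) := by ring
      _ = _ := by rw [hC2, show K + (L + 1) = K + 1 + L by ring]; ring
  cases m with
  | zero =>
    rw [if_pos rfl, add_zero]
    have : ((K : ℚ) + L + 2) * ((((0 : ℕ) : ℚ) + 1) * (w (K + 1) L 0 + w K (L + 1) 0)) =
      ((K : ℚ) + L + 2) * w (K + 1) L 0 + ((K : ℚ) + L + 2) * w K (L + 1) 0 := by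
      push_cast; ring
    rw [this, e0, e1, e2, ht]
    push_cast
    ring
  | succ p =>
    rw [if_neg (by omega), Nat.add_sub_cancel]
    have d1 := ch2 L p
    have d2 := ch2 K p
    have f1 := ch1 (K + 1) p
    have f2 := ch1 (L + 1) p
    push_cast at f1 f2
    have e3 : ((K : ℚ) + L + 2) * (2 * (((K : ℚ) + 1) - (p : ℚ)) * w (K + 1) L p) =
        2 * ((K + 1 + (L + 1)).choose (L + 1) : ℚ) * cc (K + 1 + L) p *
        (((p : ℚ) + 1) * ((K + 1).choose (p + 1) : ℚ)) *
        (((p : ℚ) + 1) * ((L + 1).choose (p + 1) : ℚ)) := by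
      rw [f1, f2]
      unfold w
      have g1 : ((L : ℚ) + 1) * (L.choose p : ℚ) = ((L : ℚ) + 1 - p) * ((L + 1).choose p : ℚ) := by
        rw [d1]
      calc _ = 2 * (((K : ℚ) + L + 2) * ((K + 1 + L).choose L : ℚ)) * cc (K + 1 + L) p *
            (((K : ℚ) + 1 - p) * ((K + 1).choose p : ℚ)) * (L.choose p : ℚ) := by ring
        _ = 2 * ((K + 1 + (L + 1)).choose (L + 1) : ℚ) * cc (K + 1 + L) p *
            (((K : ℚ) + 1 - p) * ((K + 1).choose p : ℚ)) *
            (((L : ℚ) + 1) * (L.choose p : ℚ)) := by rw [hC1]; ring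
        _ = _ := by rw [g1]
    have e4 : ((K : ℚ) + L + 2) * (2 * (((L : ℚ) + 1) - (p : ℚ)) * w K (L + 1) p) =
        2 * ((K + 1 + (L + 1)).choose (L + 1) : ℚ) * cc (K + 1 + L) p *
        (((p : ℚ) + 1) * ((K + 1).choose (p + 1) : ℚ)) *
        (((p : ℚ) + 1) * ((L + 1).choose (p + 1) : ℚ)) := by
      rw [f1, f2]
      unfold w
      have g1 : ((K : ℚ) + 1) * (K.choose p : ℚ) = ((K : ℚ) + 1 - p) * ((K + 1).choose p : ℚ) := by
        rw [d2]
      calc _ = 2 * (((K : ℚ) + L + 2) * ((K + (L + 1)).choose (L + 1) : ℚ)) *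
            cc (K + (L + 1)) p *
            (((L : ℚ) + 1 - p) * ((L + 1).choose p : ℚ)) * (K.choose p : ℚ) := by ring
        _ = 2 * ((K + 1 + (L + 1)).choose (L + 1) : ℚ) * cc (K + 1 + L) p *
            (((L : ℚ) + 1 - p) * ((L + 1).choose p : ℚ)) *
            (((K : ℚ) + 1) * (K.choose p : ℚ)) := by
            rw [hC2, show K + (L + 1) = K + 1 + L by ring]; ring
        _ = _ := by rw [g1]; ring
    have : ((K : ℚ) + L + 2) * ((((p + 1 : ℕ) : ℚ) + 1) * (w (K + 1) L (p + 1) +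
        w K (L + 1) (p + 1)) + (2 * (((K : ℚ) + 1) - (p : ℚ)) * w (K + 1) L p +
        2 * (((L : ℚ) + 1) - (p : ℚ)) * w K (L + 1) p)) =
      (((p + 1 : ℕ) : ℚ) + 1) * (((K : ℚ) + L + 2) * w (K + 1) L (p + 1) +
        ((K : ℚ) + L + 2) * w K (L + 1) (p + 1)) +
      (((K : ℚ) + L + 2) * (2 * (((K : ℚ) + 1) - (p : ℚ)) * w (K + 1) L p) +
      ((K : ℚ) + L + 2) * (2 * (((L : ℚ) + 1) - (p : ℚ)) * w K (L + 1) p)) := by ring
    rw [this, e0, e1, e2, e3, e4, ht, Nat.add_sub_cancel]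
    push_cast
    ring

/-- The weighted sum of a statistic. -/
def FF (N : ℕ) (g : ℕ → ℕ → ℕ → ℚ) : ℚ :=
  ∑ p ∈ antidiagonal N, ∑ m ∈ range (N + 1), w p.1 p.2 m * g p.1 p.2 m

/-- The operator on statistics given by the insertion of a leaf. -/
def Phi (g : ℕ → ℕ → ℕ → ℚ) : ℕ → ℕ → ℕ → ℚ := fun k l m =>
  ((m : ℚ) + 1) * (g k (l + 1) m + g (k + 1) l m) +
    2 * ((k : ℚ) - m) * g k (l + 1) (m + 1) + 2 * ((l : ℚ) - m) * g (k + 1) l (m + 1)

lemma mem_anti {N : ℕ} {p : ℕ × ℕ} (hp : p ∈ antidiagonal N) : p.1 + p.2 = N :=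
  Finset.HasAntidiagonal.mem_antidiagonal.1 hp

lemma sum_flatMap' {α β : Type*} (L : List α) (f : α → List β) (h : β → ℚ) :
    ((L.flatMap f).map h).sum = (L.map (fun x => ((f x).map h).sum)).sum := by
  induction L with
  | nil => simp
  | cons a L ih => simp only [List.flatMap_cons, List.map_append, List.sum_append, ih,
      List.map_cons, List.sum_cons]

lemma FF_succ (N : ℕ) (g : ℕ → ℕ → ℕ → ℚ) : FF (N + 1) g = FF N (Phi g) := by
  -- the two groups of terms
  let A : ℕ × ℕ → ℚ := fun p => match p.2 with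
    | 0 => 0
    | (l + 1) => ∑ m ∈ range (N + 1), w p.1 l m *
        (((m : ℚ) + 1) * g p.1 (l + 1) m + 2 * ((p.1 : ℚ) - m) * g p.1 (l + 1) (m + 1))
  let B : ℕ × ℕ → ℚ := fun p => match p.1 with
    | 0 => 0
    | (k + 1) => ∑ m ∈ range (N + 1), w k p.2 m *
        (((m : ℚ) + 1) * g (k + 1) p.2 m + 2 * ((p.2 : ℚ) - m) * g (k + 1) p.2 (m + 1))
  have h1 : FF N (Phi g) = ∑ p ∈ antidiagonal (N + 1), A p + ∑ p ∈ antidiagonal (N + 1), B p := by
    rw [Finset.Nat.sum_antidiagonal_succ' (f := A), Finset.Nat.sum_antidiagonal_succ (f := B)]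
    have hA0 : A (N + 1, 0) = 0 := rfl
    have hB0 : B (0, N + 1) = 0 := rfl
    rw [hA0, hB0, zero_add, zero_add, ← Finset.sum_add_distrib, FF]
    refine Finset.sum_congr rfl fun p _ => ?_
    show _ = (∑ m ∈ range (N + 1), w p.1 p.2 m *
        (((m : ℚ) + 1) * g p.1 (p.2 + 1) m + 2 * ((p.1 : ℚ) - m) * g p.1 (p.2 + 1) (m + 1))) +
      ∑ m ∈ range (N + 1), w p.1 p.2 m *
        (((m : ℚ) + 1) * g (p.1 + 1) p.2 m + 2 * ((p.2 : ℚ) - m) * g (p.1 + 1) p.2 (m + 1))
    rw [← Finset.sum_add_distrib]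
    refine Finset.sum_congr rfl fun m _ => ?_
    unfold Phi
    ring
  rw [h1, ← Finset.sum_add_distrib, FF]
  refine Finset.sum_congr rfl fun p hp => ?_
  have hp := mem_anti hp
  obtain ⟨k, l⟩ := p
  simp only at hp ⊢
  cases k with
  | zero =>
    obtain rfl : l = N + 1 := by omega
    have hB : B (0, N + 1) = 0 := rfl
    rw [hB, add_zero]
    show _ = ∑ m ∈ range (N + 1), w 0 N m *
        (((m : ℚ) + 1) * g 0 (N + 1) m + 2 * (((0 : ℕ) : ℚ) - m) * g 0 (N + 1) (m + 1))
    rw [Finset.sum_range_succ' _ (N + 1)]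
    conv_rhs => rw [Finset.sum_range_succ' _ N]
    have z1 : ∑ m ∈ range (N + 1), w 0 (N + 1) (m + 1) * g 0 (N + 1) (m + 1) = 0 :=
      Finset.sum_eq_zero fun m _ => by rw [w_zero_left 0 _ (m + 1) (by omega), zero_mul]
    have z2 : ∑ m ∈ range N, w 0 N (m + 1) *
        ((((m + 1 : ℕ) : ℚ) + 1) * g 0 (N + 1) (m + 1) +
          2 * (((0 : ℕ) : ℚ) - ((m + 1 : ℕ) : ℚ)) * g 0 (N + 1) (m + 1 + 1)) = 0 :=
      Finset.sum_eq_zero fun m _ => by rw [w_zero_left 0 _ (m + 1) (by omega), zero_mul]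
    rw [z1, z2, w_left_zero, w_left_zero]
    simp
  | succ K =>
    cases l with
    | zero =>
      obtain rfl : K = N := by omega
      have hA : A (K + 1, 0) = 0 := rfl
      rw [hA, zero_add]
      show _ = ∑ m ∈ range (K + 1), w K 0 m *
          (((m : ℚ) + 1) * g (K + 1) 0 m + 2 * (((0 : ℕ) : ℚ) - m) * g (K + 1) 0 (m + 1))
      rw [Finset.sum_range_succ' _ (K + 1)]
      conv_rhs => rw [Finset.sum_range_succ' _ K]
      have z1 : ∑ m ∈ range (K + 1), w (K + 1) 0 (m + 1) * g (K + 1) 0 (m + 1) = 0 :=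
        Finset.sum_eq_zero fun m _ => by rw [w_zero_right _ 0 (m + 1) (by omega), zero_mul]
      have z2 : ∑ m ∈ range K, w K 0 (m + 1) *
          ((((m + 1 : ℕ) : ℚ) + 1) * g (K + 1) 0 (m + 1) +
            2 * (((0 : ℕ) : ℚ) - ((m + 1 : ℕ) : ℚ)) * g (K + 1) 0 (m + 1 + 1)) = 0 :=
        Finset.sum_eq_zero fun m _ => by rw [w_zero_right _ 0 (m + 1) (by omega), zero_mul]
      rw [z1, z2, w_right_zero, w_right_zero]
      simp
    | succ L =>
      show _ = (∑ m ∈ range (N + 1), w (K + 1) L m *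
          (((m : ℚ) + 1) * g (K + 1) (L + 1) m +
            2 * (((K + 1 : ℕ) : ℚ) - m) * g (K + 1) (L + 1) (m + 1))) +
        ∑ m ∈ range (N + 1), w K (L + 1) m *
          (((m : ℚ) + 1) * g (K + 1) (L + 1) m +
            2 * (((L + 1 : ℕ) : ℚ) - m) * g (K + 1) (L + 1) (m + 1))
      rw [← Finset.sum_add_distrib]
      have s1 : ∑ m ∈ range (N + 1), (w (K + 1) L m *
          (((m : ℚ) + 1) * g (K + 1) (L + 1) m +
            2 * (((K + 1 : ℕ) : ℚ) - m) * g (K + 1) (L + 1) (m + 1)) +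
          w K (L + 1) m *
          (((m : ℚ) + 1) * g (K + 1) (L + 1) m +
            2 * (((L + 1 : ℕ) : ℚ) - m) * g (K + 1) (L + 1) (m + 1))) =
          ∑ m ∈ range (N + 2), ((m : ℚ) + 1) * (w (K + 1) L m + w K (L + 1) m) *
            g (K + 1) (L + 1) m +
          ∑ m ∈ range (N + 2), (if m = 0 then 0 else
            2 * (((K : ℚ) + 1) - ((m - 1 : ℕ) : ℚ)) * w (K + 1) L (m - 1) +
            2 * (((L : ℚ) + 1) - ((m - 1 : ℕ) : ℚ)) * w K (L + 1) (m - 1)) *
            g (K + 1) (L + 1) m := by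
        rw [show N + 2 = (N + 1) + 1 by ring, Finset.sum_range_succ
          (fun m : ℕ => ((m : ℚ) + 1) * (w (K + 1) L m + w K (L + 1) m) * g (K + 1) (L + 1) m),
          Finset.sum_range_succ' (fun m : ℕ => (if m = 0 then 0 else
            2 * (((K : ℚ) + 1) - ((m - 1 : ℕ) : ℚ)) * w (K + 1) L (m - 1) +
            2 * (((L : ℚ) + 1) - ((m - 1 : ℕ) : ℚ)) * w K (L + 1) (m - 1)) *
            g (K + 1) (L + 1) m)]
        rw [w_zero_right (K + 1) L (N + 1) (by omega), w_zero_left K (L + 1) (N + 1) (by omega)]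
        simp only [if_true, zero_mul, add_zero, mul_zero, Nat.add_sub_cancel]
        rw [← Finset.sum_add_distrib]
        refine Finset.sum_congr rfl fun m _ => ?_
        rw [if_neg (by omega)]
        push_cast
        ring
      rw [s1, ← Finset.sum_add_distrib]
      refine Finset.sum_congr rfl fun m _ => ?_
      rw [w_rec K L m]
      ring

lemma FF_zero (g : ℕ → ℕ → ℕ → ℚ) : FF 0 g = g 0 0 0 := by
  simp [FF, w_zero_zero]

/-- The sum of a statistic over all decreasing trees with given labels. -/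
lemma sum_trees : ∀ (L : List ℕ), L ≠ [] → ∀ g : ℕ → ℕ → ℕ → ℚ,
    ((trees L).map (fun s => g s.rightEdges s.leftEdges s.twos)).sum = FF (L.length - 1) g
  | [], h, _ => absurd rfl h
  | [v], _, g => by simp [trees, FF_zero, rightEdges, leftEdges, twos]
  | (a :: b :: S), _, g => by
      have ih := sum_trees (b :: S) (by simp) (Phi g)
      have e : (a :: b :: S).length - 1 = ((b :: S).length - 1) + 1 := by simp
      rw [e, FF_succ, ← ih, trees, sum_flatMap']
      congr 1
      refine List.map_congr_left fun t _ => ?_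
      exact sum_ins a t g

/-- The indicator sum. -/
lemma FF_indicator (N k : ℕ) (hk : 1 ≤ k) (hkN : k ≤ N + 1) :
    FF N (fun x _ _ => if x + 1 = k then 1 else 0) = aa (k - 1) (N + 1 - k) := by
  rw [FF]
  have h1 : ∀ p ∈ antidiagonal N, p ≠ (k - 1, N + 1 - k) →
      ∑ m ∈ range (N + 1), w p.1 p.2 m * (if p.1 + 1 = k then (1 : ℚ) else 0) = 0 := by
    intro p hp hne
    have hp := mem_anti hp
    refine Finset.sum_eq_zero fun m _ => ?_
    rw [if_neg, mul_zero]
    intro h
    apply hne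
    ext
    · simp only; omega
    · simp only; omega
  rw [Finset.sum_eq_single (k - 1, N + 1 - k) (fun p hp hne => h1 p hp hne)
    (fun h => absurd (Finset.HasAntidiagonal.mem_antidiagonal.2
      (show (k - 1) + (N + 1 - k) = N by omega)) h)]
  rw [aa_eq (k - 1) (N + 1 - k) (N + 1) (by omega)]
  refine Finset.sum_congr rfl fun m _ => ?_
  rw [if_pos (by omega), mul_one]

lemma range'_labels (n : ℕ) : ((List.range' 1 n : List ℕ) : Multiset ℕ) = (Finset.Icc 1 n).val := by
  refine (Multiset.Nodup.ext (Multiset.coe_nodup.2 List.nodup_range') (Finset.Icc 1 n).nodup).2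
    fun x => ?_
  rw [Multiset.mem_coe, Finset.mem_val, Finset.mem_Icc, List.mem_range'_1]
  omega

/-- The Boolean-Eulerian numbers in terms of the weights. -/
theorem BoEl_eq (n k : ℕ) (hk : 1 ≤ k) (hkn : k ≤ n) : (BoEl n k : ℚ) = aa (k - 1) (n - k) := by
  classical
  have hn : List.range' 1 n ≠ [] := by
    intro h
    have := congrArg List.length h
    simp at this
    omega
  have hp : (List.range' 1 n).Pairwise (· < ·) := List.pairwise_lt_range'
  have hset : {t : BTree | t.labels = (Finset.Icc 1 n).val ∧ t.Decreasing ∧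
      t.rightEdges + 1 = k} =
      (((trees (List.range' 1 n)).filter (fun t => t.rightEdges + 1 = k)).toFinset : Set BTree) := by
    ext t
    simp only [Set.mem_ofPred_eq, List.coe_toFinset, List.mem_filter, decide_eq_true_eq,
      mem_trees _ hn hp, range'_labels, and_assoc]
  have hcard : BoEl n k = ((trees (List.range' 1 n)).filter
      (fun t => t.rightEdges + 1 = k)).length := by
    rw [BoEl, hset, Set.ncard_coe_finset, List.toFinset_card_of_nodup]
    exact (nodup_trees _ hp).filter _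
  have hsum := sum_trees (List.range' 1 n) hn (fun x _ _ => if x + 1 = k then 1 else 0)
  have hlen : (List.range' 1 n).length - 1 = n - 1 := by simp
  rw [hlen, FF_indicator (n - 1) k hk (by omega)] at hsum
  have e : n - 1 + 1 - k = n - k := by omega
  rw [e] at hsum
  rw [hcard, ← hsum]
  induction trees (List.range' 1 n) with
  | nil => simp
  | cons a L ih =>
    rw [List.filter_cons]
    by_cases h : a.rightEdges + 1 = k
    · simp only [h, decide_true, if_true, List.length_cons, List.map_cons, List.sum_cons]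
      push_cast
      rw [ih]; ring
    · simp only [h, decide_false, List.map_cons, List.sum_cons, if_false, zero_add]
      simpa using ih

/-- Log-concavity of the columns of the Boolean-Eulerian triangle. -/
theorem BoEl_logconcave (k n : ℕ) (hk : 1 ≤ k) (hn : k + 1 ≤ n) :
    BoEl (n - 1) k * BoEl (n + 1) k ≤ BoEl n k ^ 2 := by
  have h1 := BoEl_eq (n - 1) k hk (by omega)
  have h2 := BoEl_eq n k hk (by omega)
  have h3 := BoEl_eq (n + 1) k hk (by omega)
  obtain ⟨l, rfl⟩ : ∃ l, n = k + 1 + l := ⟨n - (k + 1), by omega⟩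
  have h := aa_logconcave (k - 1) l
  rw [show k + 1 + l - 1 - k = l by omega] at h1
  rw [show k + 1 + l - k = l + 1 by omega] at h2
  rw [show k + 1 + l + 1 - k = l + 2 by omega] at h3
  rw [← h1, ← h2, ← h3] at h
  exact_mod_cast h

end Pool.Agent.Helper91.BE
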