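import Mathlib

set_option autoImplicit false

/-!
# Bicolored decreasing binary trees and Boolean-Eulerian numbers
-/

namespace Pool.Agent.Helper91.BE

/-- Finite rooted binary trees with labelled vertices, in which every child is a left or a
right child, and in which every vertex with two children carries one of two colours
(a `Bool`).  The four constructors are the four possibilities for the root: no child, only a
left child, only a right child, both children (the first subtree is the left one). -/
inductive BTree : Type
  | leaf (v : ℕ) : BTree
  | onlyLeft (v : ℕ) (t : BTree) : BTree
  | onlyRight (v : ℕ) (t : BTree) : BTree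
  | both (v : ℕ) (c : Bool) (l r : BTree) : BTree

namespace BTree

/-- The label of the root. -/
def root : BTree → ℕ
  | leaf v => v
  | onlyLeft v _ => v
  | onlyRight v _ => v
  | both v _ _ _ => v

/-- The multiset of all labels. -/
def labels : BTree → Multiset ℕ
  | leaf v => {v}
  | onlyLeft v t => v ::ₘ t.labels
  | onlyRight v t => v ::ₘ t.labels
  | both v _ l r => v ::ₘ (l.labels + r.labels)

/-- Every vertex has a larger label than each of its children. -/
def Decreasing : BTree → Prop
  | leaf _ => True
  | onlyLeft v t => t.root < v ∧ t.Decreasing
  | onlyRight v t => t.root < v ∧ t.Decreasing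
  | both v _ l r => l.root < v ∧ r.root < v ∧ l.Decreasing ∧ r.Decreasing

/-- The number of right edges (edges from a vertex to its right child). -/
def rightEdges : BTree → ℕ
  | leaf _ => 0
  | onlyLeft _ t => t.rightEdges
  | onlyRight _ t => t.rightEdges + 1
  | both _ _ l r => l.rightEdges + r.rightEdges + 1

end BTree

/-- The Boolean-Eulerian number: the number of bicolored decreasing binary trees with vertex
set `{1, ..., n}` (each label used exactly once) and exactly `k - 1` right edges. -/
noncomputable def BoEl (n k : ℕ) : ℕ :=
  Set.ncard {t : BTree | t.labels = (Finset.Icc 1 n).val ∧ t.Decreasing ∧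
    t.rightEdges + 1 = k}

end Pool.Agent.Helper91.BE
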