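import Pool.Agent.Helper91.BE.Row

set_option autoImplicit false

namespace Pool.Agent.Helper91.BE

open Finset

/-! ### Consequences of the likelihood-ratio orders for the means -/

lemma col_mm (k l : ℕ) : mm k l * aa k (l + 1) ≤ aa k l * mm k (l + 1) := by
  have h := lr_sum (k + 1) (w k l) (w k (l + 1)) (fun m => -(m : ℚ)) (w_col_lr k l (k + 1))
    (fun i j hij _ => by
      have : (i : ℚ) ≤ (j : ℚ) := by exact_mod_cast hij.le
      linarith)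
  simp only [mul_neg, Finset.sum_neg_distrib] at h
  rw [← aa_eq k l (k + 1) (by omega), ← aa_eq k (l + 1) (k + 1) (by omega),
    ← mm_eq k l (k + 1) (by omega), ← mm_eq k (l + 1) (k + 1) (by omega)] at h
  linarith

lemma row_mm (k l : ℕ) (hl : l ≤ k) :
    mm (k + 1) l * aa k (l + 1) ≤ aa (k + 1) l * mm k (l + 1) := by
  have h := lr_sum (l + 2) (w (k + 1) l) (w k (l + 1)) (fun m => -(m : ℚ))
    (w_row_lr k l (l + 2) hl)
    (fun i j hij _ => by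
      have : (i : ℚ) ≤ (j : ℚ) := by exact_mod_cast hij.le
      linarith)
  simp only [mul_neg, Finset.sum_neg_distrib] at h
  rw [← aa_eq (k + 1) l (l + 2) (by omega), ← aa_eq k (l + 1) (l + 2) (by omega),
    ← mm_eq (k + 1) l (l + 2) (by omega), ← mm_eq k (l + 1) (l + 2) (by omega)] at h
  linarith

lemma row_mm' (k l : ℕ) (hl : l + 1 ≤ k) :
    mm k (l + 1) * aa (k + 1) l ≤ aa k (l + 1) * (mm (k + 1) l + aa (k + 1) l) := by
  have hLR : ∀ i j, i < j → j < l + 1 → w k (l + 1) (j + 1) * w (k + 1) l i ≤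
      w k (l + 1) (i + 1) * w (k + 1) l j := by
    refine lr_of_consec (l + 1) (l + 1) (fun m => w k (l + 1) (m + 1)) (w (k + 1) l)
      ?_ ?_ (fun m => w_nonneg _ _ _) (w_nonneg _ _) ?_
    · intro m hm; exact w_pos _ _ _ (by omega) (by omega)
    · intro m hm hm'; omega
    · intro m hm; exact w_row' k l m (by omega) (by omega) (by omega)
  have h := lr_sum (l + 1) (fun m => w k (l + 1) (m + 1)) (w (k + 1) l)
    (fun m => -((m : ℚ) + 1)) hLR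
    (fun i j hij _ => by
      have : (i : ℚ) ≤ (j : ℚ) := by exact_mod_cast hij.le
      linarith)
  have e1 : mm k (l + 1) = ∑ m ∈ range (l + 1), w k (l + 1) (m + 1) * ((m : ℚ) + 1) := by
    rw [mm_eq k (l + 1) (l + 2) (by omega), show l + 2 = (l + 1) + 1 by ring,
      Finset.sum_range_succ']
    push_cast
    simp
  have e2 : aa k (l + 1) = ∑ m ∈ range (l + 1), w k (l + 1) (m + 1) + w k (l + 1) 0 := by
    rw [aa_eq k (l + 1) (l + 2) (by omega), show l + 2 = (l + 1) + 1 by ring,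
      Finset.sum_range_succ']
  have e3 : mm (k + 1) l + aa (k + 1) l = ∑ m ∈ range (l + 1), w (k + 1) l m * ((m : ℚ) + 1) := by
    rw [mm_eq (k + 1) l (l + 1) (by omega), aa_eq (k + 1) l (l + 1) (by omega),
      ← Finset.sum_add_distrib]
    exact Finset.sum_congr rfl fun m _ => by ring
  have e4 : aa (k + 1) l = ∑ m ∈ range (l + 1), w (k + 1) l m := aa_eq _ _ _ (by omega)
  simp only [mul_neg, Finset.sum_neg_distrib] at h
  rw [← e1, ← e3, ← e4] at h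
  have h0 := w_nonneg k (l + 1) 0
  have h1 : 0 ≤ mm (k + 1) l + aa (k + 1) l := by
    rw [e3]
    exact Finset.sum_nonneg fun m _ => mul_nonneg (w_nonneg _ _ _) (by positivity)
  rw [e2]
  nlinarith [mul_nonneg h0 h1]

lemma mm_nonneg (k l : ℕ) : 0 ≤ mm k l :=
  Finset.sum_nonneg fun m _ => mul_nonneg (w_nonneg _ _ _) (by positivity)

lemma mm_le (k l : ℕ) : mm k l ≤ (l : ℚ) * aa k l := by
  rw [mm_eq k l (l + 1) (by omega), aa_eq k l (l + 1) (by omega), Finset.mul_sum]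
  refine Finset.sum_le_sum fun m hm => ?_
  rw [Finset.mem_range] at hm
  have : (m : ℚ) ≤ (l : ℚ) := by exact_mod_cast (by omega : m ≤ l)
  nlinarith [w_nonneg k l m]

/-! ### The far regime -/

lemma step_alg (A A0 A2 m1 m2 j i : ℚ) (hj : 0 ≤ j) (hij : 3 * j + 5 ≤ i)
    (hA : 0 < A) (hA0 : 0 < A0)
    (hm1 : m1 ≤ (j + 1) * A)
    (h1 : m1 * A2 ≤ A * (m2 + A2))
    (h2 : (j + 2) ^ 2 * (i + 2) ^ 2 * (A2 * A0) ≤ (j + 1) ^ 2 * (i + 1) ^ 2 * A ^ 2) :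
    (j + 3) * A0 * ((3 * i + 7) * A2 - 2 * m2) ≤ (j + 2) * A * ((3 * i + 4) * A - 2 * m1) := by
  obtain ⟨B, hB⟩ : ∃ B : ℚ, B = (3 * i + 9) * A - 2 * m1 := ⟨_, rfl⟩
  have hBl : (3 * i + 7 - 2 * j) * A ≤ B := by rw [hB]; nlinarith
  have hB0 : 0 ≤ B := le_trans (mul_nonneg (by linarith) hA.le) hBl
  have s1 : A * ((3 * i + 7) * A2 - 2 * m2) ≤ A2 * B := by rw [hB]; nlinarith
  have hi0 : 0 ≤ i := by linarith
  have pos1 : 0 < (j + 2) ^ 2 * (i + 2) ^ 2 * A := by positivity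
  refine le_of_mul_le_mul_left ?_ pos1
  have s2 := mul_le_mul_of_nonneg_left s1 (show 0 ≤ (j + 2) ^ 2 * (i + 2) ^ 2 * ((j + 3) * A0) by
    positivity)
  have s3 := mul_le_mul_of_nonneg_right h2 (show 0 ≤ (j + 3) * B by positivity)
  -- polynomial inequality
  obtain ⟨s, hs⟩ : ∃ s : ℚ, s = i - (3 * j + 5) := ⟨_, rfl⟩
  have hs0 : 0 ≤ s := by rw [hs]; linarith
  have hi : i = 3 * j + 5 + s := by rw [hs]; ring
  have poly : 0 ≤ (j + 2) ^ 3 * (i + 2) ^ 2 * (3 * i + 2 - 2 * j) -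
      (j + 3) * (j + 1) ^ 2 * (i + 1) ^ 2 * (3 * i + 7 - 2 * j) := by
    rw [hi]
    ring_nf
    positivity
  have polyD : 0 ≤ (j + 2) ^ 3 * (i + 2) ^ 2 - (j + 3) * (j + 1) ^ 2 * (i + 1) ^ 2 := by
    rw [hi]
    ring_nf
    positivity
  have s4 := mul_le_mul_of_nonneg_left hBl polyD
  have s5 : 0 ≤ ((j + 2) ^ 3 * (i + 2) ^ 2 * (3 * i + 2 - 2 * j) -
      (j + 3) * (j + 1) ^ 2 * (i + 1) ^ 2 * (3 * i + 7 - 2 * j)) * A := mul_nonneg poly hA.le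
  have s6 : (j + 3) * (j + 1) ^ 2 * (i + 1) ^ 2 * B ≤ (j + 2) ^ 3 * (i + 2) ^ 2 * (B - 5 * A) := by
    nlinarith [s4, s5]
  have s7 := mul_le_mul_of_nonneg_left s6 (show 0 ≤ A ^ 2 by positivity)
  have e : (3 * i + 4) * A - 2 * m1 = B - 5 * A := by rw [hB]; ring
  rw [e]
  calc (j + 2) ^ 2 * (i + 2) ^ 2 * A * ((j + 3) * A0 * ((3 * i + 7) * A2 - 2 * m2))
      = (j + 2) ^ 2 * (i + 2) ^ 2 * ((j + 3) * A0) * (A * ((3 * i + 7) * A2 - 2 * m2)) := by ring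
    _ ≤ (j + 2) ^ 2 * (i + 2) ^ 2 * ((j + 3) * A0) * (A2 * B) := s2
    _ = (j + 2) ^ 2 * (i + 2) ^ 2 * (A2 * A0) * ((j + 3) * B) := by ring
    _ ≤ (j + 1) ^ 2 * (i + 1) ^ 2 * A ^ 2 * ((j + 3) * B) := s3
    _ = A ^ 2 * ((j + 3) * (j + 1) ^ 2 * (i + 1) ^ 2 * B) := by ring
    _ ≤ A ^ 2 * ((j + 2) ^ 3 * (i + 2) ^ 2 * (B - 5 * A)) := s7
    _ = (j + 2) ^ 2 * (i + 2) ^ 2 * A * ((j + 2) * A * (B - 5 * A)) := by ring

lemma far_step (i j : ℕ) (h : 3 * j + 5 ≤ i) :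
    ((j : ℚ) + 3) * (aa (i + 2) (j + 1) * aa i (j + 2)) ≤
      ((j : ℚ) + 2) * (aa (i + 1) (j + 2) * aa (i + 1) (j + 1)) := by
  have c1 := col_rec (i + 1) j
  have c2 := col_rec i (j + 1)
  rw [show i + 1 + 1 = i + 2 by ring] at c1
  rw [show j + 1 + 1 = j + 2 by ring] at c2
  push_cast at c1 c2
  have q1 := row_mm' (i + 1) j (by omega)
  rw [show i + 1 + 1 = i + 2 by ring] at q1
  have q2 := row_strong i j (by omega)
  have q3 := mm_le (i + 1) (j + 1)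
  push_cast at q3
  have al := step_alg (aa (i + 1) (j + 1)) (aa i (j + 2)) (aa (i + 2) j) (mm (i + 1) (j + 1))
    (mm (i + 2) j) (j : ℚ) (i : ℚ) (by positivity) (by exact_mod_cast h) (aa_pos _ _)
    (aa_pos _ _) q3 q1 q2
  rw [c1, c2]
  nlinarith [al]

lemma far_F (j s : ℕ) :
    3 * (((3 * j + 5 + s : ℕ) : ℚ) + 1) * (3 * ((3 * j + 5 + s : ℕ) : ℚ) - 3 * j - 2) *
      aa (3 * j + 5 + s + 1) (j + 1) ≤
      ((j : ℚ) + 2) * (6 * j + 13) * aa (3 * j + 5 + s) (j + 2) := by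
  induction s with
  | zero =>
    have h := row_up (3 * j + 5) (j + 1) (by omega)
    rw [show j + 1 + 1 = j + 2 by ring] at h
    push_cast at h ⊢
    have h9 : 9 * aa (3 * j + 5 + 1) (j + 1) ≤ aa (3 * j + 5) (j + 2) := by
      have hp : (0 : ℚ) < ((j : ℚ) + 1 + 1) ^ 2 := by positivity
      refine le_of_mul_le_mul_left ?_ hp
      nlinarith [h]
    have := mul_le_mul_of_nonneg_left h9
      (show (0 : ℚ) ≤ ((j : ℚ) + 2) * (6 * j + 13) by positivity)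
    simp only [add_zero]
    nlinarith [this]
  | succ s ih =>
    have hs := far_step (3 * j + 5 + s) j (by omega)
    obtain ⟨i, hi⟩ : ∃ i : ℕ, i = 3 * j + 5 + s := ⟨_, rfl⟩
    rw [show 3 * j + 5 + (s + 1) = 3 * j + 5 + s + 1 by ring]
    rw [← hi] at ih hs ⊢
    have hX := aa_pos (i + 2) (j + 1)
    have hA0 := aa_pos i (j + 2)
    have hY := aa_pos (i + 1) (j + 2)
    have hA := aa_pos (i + 1) (j + 1)
    have hiq : (i : ℚ) = 3 * (j : ℚ) + 5 + s := by rw [hi]; push_cast; ring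
    have hj0 : (0 : ℚ) ≤ (j : ℚ) := by positivity
    have hs0 : (0 : ℚ) ≤ (s : ℚ) := by positivity
    push_cast
    rw [show i + 1 + 1 = i + 2 by ring]
    -- generalize
    obtain ⟨X, eX⟩ : ∃ X, X = aa (i + 2) (j + 1) := ⟨_, rfl⟩
    obtain ⟨A0, eA0⟩ : ∃ X, X = aa i (j + 2) := ⟨_, rfl⟩
    obtain ⟨Y, eY⟩ : ∃ X, X = aa (i + 1) (j + 2) := ⟨_, rfl⟩
    obtain ⟨A, eA⟩ : ∃ X, X = aa (i + 1) (j + 1) := ⟨_, rfl⟩
    rw [← eX] at hX hs ⊢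
    rw [← eA0] at hA0 hs ih
    rw [← eY] at hY hs ⊢
    rw [← eA] at hA hs ih
    have g1 : ((j : ℚ) + 3) * (3 * ((i : ℚ) + 1) * (3 * (i : ℚ) - 3 * j - 2)) * X ≤
        ((j : ℚ) + 2) * (((j : ℚ) + 2) * (6 * j + 13)) * Y := by
      refine le_of_mul_le_mul_left ?_ hA0
      have t0 : 0 ≤ 3 * ((i : ℚ) + 1) * (3 * (i : ℚ) - 3 * j - 2) :=
        mul_nonneg (by positivity) (by rw [hiq]; linarith)
      have t1 := mul_le_mul_of_nonneg_left hs t0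
      have t2 := mul_le_mul_of_nonneg_left ih (show 0 ≤ ((j : ℚ) + 2) * Y by positivity)
      nlinarith [t1, t2]
    have g2 : ((i : ℚ) + 2) * (3 * (i : ℚ) - 3 * j + 1) * ((j : ℚ) + 2) ≤
        ((j : ℚ) + 3) * ((i : ℚ) + 1) * (3 * (i : ℚ) - 3 * j - 2) := by
      have : 0 ≤ ((j : ℚ) + 3) * ((i : ℚ) + 1) * (3 * (i : ℚ) - 3 * j - 2) -
        ((i : ℚ) + 2) * (3 * (i : ℚ) - 3 * j + 1) * ((j : ℚ) + 2) := by
        rw [hiq]; ring_nf; positivity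
      linarith
    have g3 := mul_le_mul_of_nonneg_right g2 (show 0 ≤ 3 * X by positivity)
    have hj2 : (0 : ℚ) < (j : ℚ) + 2 := by positivity
    refine le_of_mul_le_mul_left ?_ hj2
    nlinarith [g1, g3]

/-! ### The key row inequality -/

lemma poly_far (j s i : ℚ) (hj : 0 ≤ j) (hs : 0 ≤ s) (hi : i = 3 * j + 5 + s) :
    (3 * (i + 1) * (j + 3) ^ 2 + (j + 2) * (6 * j + 13)) * (j + 1) ^ 2 * (i + 1) ≤
      3 * ((j + 2) ^ 4 * (i + 2) ^ 2) := by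
  have : 0 ≤ 3 * ((j + 2) ^ 4 * (i + 2) ^ 2) -
      (3 * (i + 1) * (j + 3) ^ 2 + (j + 2) * (6 * j + 13)) * (j + 1) ^ 2 * (i + 1) := by
    rw [hi]; ring_nf; positivity
  linarith

lemma star (i j : ℕ) (h : j ≤ i) :
    ((j : ℚ) + 3) ^ 2 * (aa i (j + 2) * aa (i + 2) j) +
      (3 * (i : ℚ) - 3 * j - 2) * (aa (i + 1) (j + 1) * aa (i + 2) j) ≤
      ((j : ℚ) + 2) ^ 2 * aa (i + 1) (j + 1) ^ 2 := by
  have q2 := row_strong i j h
  have hA0 := aa_pos i (j + 2)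
  have hA := aa_pos (i + 1) (j + 1)
  have hA2 := aa_pos (i + 2) j
  have hj0 : (0 : ℚ) ≤ (j : ℚ) := by positivity
  have hi0 : (0 : ℚ) ≤ (i : ℚ) := by positivity
  have hji : (j : ℚ) ≤ (i : ℚ) := by exact_mod_cast h
  rcases Nat.eq_or_lt_of_le h with h0 | h0
  · -- centre
    subst h0
    obtain ⟨A0, eA0⟩ : ∃ X, X = aa j (j + 2) := ⟨_, rfl⟩
    obtain ⟨A2, eA2⟩ : ∃ X, X = aa (j + 2) j := ⟨_, rfl⟩
    obtain ⟨A, eA⟩ : ∃ X, X = aa (j + 1) (j + 1) := ⟨_, rfl⟩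
    rw [← eA0] at q2 hA0 ⊢
    rw [← eA2] at q2 hA2 ⊢
    rw [← eA] at q2 hA ⊢
    have hpos : (0 : ℚ) < ((j : ℚ) + 2) ^ 2 * ((j : ℚ) + 2) ^ 2 := by positivity
    have s1 := mul_le_mul_of_nonneg_left q2 (show (0 : ℚ) ≤ ((j : ℚ) + 3) ^ 2 by positivity)
    have poly : ((j : ℚ) + 3) ^ 2 * (((j : ℚ) + 1) ^ 2 * ((j : ℚ) + 1) ^ 2) ≤
        ((j : ℚ) + 2) ^ 2 * ((j : ℚ) + 2) ^ 2 * ((j : ℚ) + 2) ^ 2 := by
      have : 0 ≤ ((j : ℚ) + 2) ^ 2 * ((j : ℚ) + 2) ^ 2 * ((j : ℚ) + 2) ^ 2 -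
        ((j : ℚ) + 3) ^ 2 * (((j : ℚ) + 1) ^ 2 * ((j : ℚ) + 1) ^ 2) := by
        ring_nf; positivity
      linarith
    have s2 := mul_le_mul_of_nonneg_right poly (show 0 ≤ A ^ 2 by positivity)
    have s3 : ((j : ℚ) + 3) ^ 2 * (A0 * A2) ≤ ((j : ℚ) + 2) ^ 2 * A ^ 2 := by
      refine le_of_mul_le_mul_left ?_ hpos
      nlinarith [s1, s2]
    have s4 : 0 < A * A2 := mul_pos hA hA2
    nlinarith [s3, s4]
  · rcases Nat.lt_or_ge i (3 * j + 6) with h1 | h1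
    · -- near regime
      have u := row_up i (j + 1) (by omega)
      rw [show j + 1 + 1 = j + 2 by ring] at u
      push_cast at u
      have hi3 : (i : ℚ) ≤ 3 * (j : ℚ) + 5 := by exact_mod_cast (by omega : i ≤ 3 * j + 5)
      have hji1 : (j : ℚ) + 1 ≤ (i : ℚ) := by exact_mod_cast h0
      obtain ⟨A0, eA0⟩ : ∃ X, X = aa i (j + 2) := ⟨_, rfl⟩
      obtain ⟨A2, eA2⟩ : ∃ X, X = aa (i + 2) j := ⟨_, rfl⟩
      obtain ⟨A, eA⟩ : ∃ X, X = aa (i + 1) (j + 1) := ⟨_, rfl⟩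
      rw [← eA0] at q2 hA0 u ⊢
      rw [← eA2] at q2 hA2 ⊢
      rw [← eA] at q2 hA u ⊢
      have hp1 : (0 : ℚ) < ((i : ℚ) + 1) ^ 2 := by positivity
      have hp2 : (0 : ℚ) < ((j : ℚ) + 2) ^ 2 * ((i : ℚ) + 2) ^ 2 := by positivity
      refine le_of_mul_le_mul_left ?_ (mul_pos hp1 hp2)
      have t0 : (0 : ℚ) ≤ 3 * (i : ℚ) - 3 * j - 2 := by linarith
      have t1 := mul_le_mul_of_nonneg_left u (mul_nonneg t0 hA2.le)
      -- (i+1)^2 * LHS ≤ [(j+3)^2 (i+1)^2 + (3i-3j-2)(j+2)^2] A0 A2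
      have t2 : ((i : ℚ) + 1) ^ 2 * (((j : ℚ) + 3) ^ 2 * (A0 * A2) +
          (3 * (i : ℚ) - 3 * j - 2) * (A * A2)) ≤
          (((j : ℚ) + 3) ^ 2 * ((i : ℚ) + 1) ^ 2 + (3 * (i : ℚ) - 3 * j - 2) * ((j : ℚ) + 2) ^ 2) *
          (A2 * A0) := by nlinarith [t1]
      have t3 : 0 ≤ ((j : ℚ) + 3) ^ 2 * ((i : ℚ) + 1) ^ 2 +
          (3 * (i : ℚ) - 3 * j - 2) * ((j : ℚ) + 2) ^ 2 :=
        add_nonneg (by positivity) (mul_nonneg t0 (by positivity))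
      have t4 := mul_le_mul_of_nonneg_left q2 t3
      have poly : (((j : ℚ) + 3) ^ 2 * ((i : ℚ) + 1) ^ 2 +
          (3 * (i : ℚ) - 3 * j - 2) * ((j : ℚ) + 2) ^ 2) * ((j : ℚ) + 1) ^ 2 ≤
          ((j : ℚ) + 2) ^ 4 * ((i : ℚ) + 2) ^ 2 := by
        -- (3i-3j-2) ≤ 2(i+1)+1
        have v1 : (3 * (i : ℚ) - 3 * j - 2) ≤ 2 * ((i : ℚ) + 1) + 1 := by linarith
        have v2 := mul_le_mul_of_nonneg_right v1
          (show (0 : ℚ) ≤ ((j : ℚ) + 2) ^ 2 * ((j : ℚ) + 1) ^ 2 by positivity)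
        have v3 : 0 ≤ ((j : ℚ) + 2) ^ 4 * ((i : ℚ) + 2) ^ 2 -
          ((j : ℚ) + 3) ^ 2 * ((i : ℚ) + 1) ^ 2 * ((j : ℚ) + 1) ^ 2 -
          (2 * ((i : ℚ) + 1) + 1) * (((j : ℚ) + 2) ^ 2 * ((j : ℚ) + 1) ^ 2) := by
          ring_nf; positivity
        nlinarith [v2, v3]
      have t5 := mul_le_mul_of_nonneg_right poly (show 0 ≤ ((i : ℚ) + 1) ^ 2 * A ^ 2 by positivity)
      calc ((i : ℚ) + 1) ^ 2 * (((j : ℚ) + 2) ^ 2 * ((i : ℚ) + 2) ^ 2) *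
            (((j : ℚ) + 3) ^ 2 * (A0 * A2) + (3 * (i : ℚ) - 3 * j - 2) * (A * A2))
          = (((j : ℚ) + 2) ^ 2 * ((i : ℚ) + 2) ^ 2) * (((i : ℚ) + 1) ^ 2 *
            (((j : ℚ) + 3) ^ 2 * (A0 * A2) + (3 * (i : ℚ) - 3 * j - 2) * (A * A2))) := by ring
        _ ≤ (((j : ℚ) + 2) ^ 2 * ((i : ℚ) + 2) ^ 2) *
            ((((j : ℚ) + 3) ^ 2 * ((i : ℚ) + 1) ^ 2 +
              (3 * (i : ℚ) - 3 * j - 2) * ((j : ℚ) + 2) ^ 2) * (A2 * A0)) :=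
            mul_le_mul_of_nonneg_left t2 hp2.le
        _ = (((j : ℚ) + 3) ^ 2 * ((i : ℚ) + 1) ^ 2 +
              (3 * (i : ℚ) - 3 * j - 2) * ((j : ℚ) + 2) ^ 2) *
            (((j : ℚ) + 2) ^ 2 * ((i : ℚ) + 2) ^ 2 * (A2 * A0)) := by ring
        _ ≤ _ := t4
        _ = (((j : ℚ) + 3) ^ 2 * ((i : ℚ) + 1) ^ 2 +
          (3 * (i : ℚ) - 3 * j - 2) * ((j : ℚ) + 2) ^ 2) * ((j : ℚ) + 1) ^ 2 *
            (((i : ℚ) + 1) ^ 2 * A ^ 2) := by ring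
        _ ≤ _ := t5
        _ = _ := by ring
    · -- far regime
      obtain ⟨s, hs⟩ : ∃ s, i = 3 * j + 5 + s := ⟨i - (3 * j + 5), by omega⟩
      have F := far_F j s
      rw [← hs] at F
      have hiq : (i : ℚ) = 3 * (j : ℚ) + 5 + s := by rw [hs]; push_cast; ring
      have hs0 : (0 : ℚ) ≤ (s : ℚ) := by positivity
      obtain ⟨A0, eA0⟩ : ∃ X, X = aa i (j + 2) := ⟨_, rfl⟩
      obtain ⟨A2, eA2⟩ : ∃ X, X = aa (i + 2) j := ⟨_, rfl⟩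
      obtain ⟨A, eA⟩ : ∃ X, X = aa (i + 1) (j + 1) := ⟨_, rfl⟩
      rw [← eA0] at q2 hA0 F ⊢
      rw [← eA2] at q2 hA2 ⊢
      rw [← eA] at q2 hA F ⊢
      have hp1 : (0 : ℚ) < 3 * ((i : ℚ) + 1) := by positivity
      have hp2 : (0 : ℚ) < ((j : ℚ) + 2) ^ 2 * ((i : ℚ) + 2) ^ 2 := by positivity
      refine le_of_mul_le_mul_left ?_ (mul_pos hp1 hp2)
      have t1 := mul_le_mul_of_nonneg_right F hA2.le
      have t2 : 3 * ((i : ℚ) + 1) * (((j : ℚ) + 3) ^ 2 * (A0 * A2) +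
          (3 * (i : ℚ) - 3 * j - 2) * (A * A2)) ≤
          (3 * ((i : ℚ) + 1) * ((j : ℚ) + 3) ^ 2 + ((j : ℚ) + 2) * (6 * j + 13)) *
          (A2 * A0) := by nlinarith [t1]
      have t3 : 0 ≤ 3 * ((i : ℚ) + 1) * ((j : ℚ) + 3) ^ 2 + ((j : ℚ) + 2) * (6 * j + 13) := by
        positivity
      have t4 := mul_le_mul_of_nonneg_left q2 t3
      have poly : (3 * ((i : ℚ) + 1) * ((j : ℚ) + 3) ^ 2 + ((j : ℚ) + 2) * (6 * j + 13)) *
          ((j : ℚ) + 1) ^ 2 * ((i : ℚ) + 1) ≤ 3 * (((j : ℚ) + 2) ^ 4 * ((i : ℚ) + 2) ^ 2) :=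
        poly_far _ _ _ hj0 hs0 hiq
      have t5 := mul_le_mul_of_nonneg_right poly (show 0 ≤ ((i : ℚ) + 1) * A ^ 2 by positivity)
      calc 3 * ((i : ℚ) + 1) * (((j : ℚ) + 2) ^ 2 * ((i : ℚ) + 2) ^ 2) *
            (((j : ℚ) + 3) ^ 2 * (A0 * A2) + (3 * (i : ℚ) - 3 * j - 2) * (A * A2))
          = (((j : ℚ) + 2) ^ 2 * ((i : ℚ) + 2) ^ 2) * (3 * ((i : ℚ) + 1) *
            (((j : ℚ) + 3) ^ 2 * (A0 * A2) + (3 * (i : ℚ) - 3 * j - 2) * (A * A2))) := by ring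
        _ ≤ (((j : ℚ) + 2) ^ 2 * ((i : ℚ) + 2) ^ 2) *
            ((3 * ((i : ℚ) + 1) * ((j : ℚ) + 3) ^ 2 + ((j : ℚ) + 2) * (6 * j + 13)) *
              (A2 * A0)) :=
            mul_le_mul_of_nonneg_left t2 hp2.le
        _ = (3 * ((i : ℚ) + 1) * ((j : ℚ) + 3) ^ 2 + ((j : ℚ) + 2) * (6 * j + 13)) *
            (((j : ℚ) + 2) ^ 2 * ((i : ℚ) + 2) ^ 2 * (A2 * A0)) := by ring
        _ ≤ _ := t4
        _ = (3 * ((i : ℚ) + 1) * ((j : ℚ) + 3) ^ 2 + ((j : ℚ) + 2) * (6 * j + 13)) *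
          ((j : ℚ) + 1) ^ 2 * ((i : ℚ) + 1) * (((i : ℚ) + 1) * A ^ 2) := by ring
        _ ≤ _ := t5
        _ = _ := by ring

lemma key_C1 (i j : ℕ) (h : j ≤ i) :
    ((j : ℚ) + 3) * (aa (i + 2) j * aa (i + 1) (j + 2)) ≤
      ((j : ℚ) + 2) * (aa (i + 2) (j + 1) * aa (i + 1) (j + 1)) := by
  have c1 := col_rec (i + 1) j
  have c2 := col_rec i (j + 1)
  rw [show i + 1 + 1 = i + 2 by ring] at c1
  rw [show j + 1 + 1 = j + 2 by ring] at c2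
  push_cast at c1 c2
  have q1 := row_mm (i + 1) j (by omega)
  rw [show i + 1 + 1 = i + 2 by ring] at q1
  have st := star i j h
  have m1 := mm_nonneg (i + 1) (j + 1)
  have hA2 := aa_pos (i + 2) j
  have hj0 : (0 : ℚ) ≤ (j : ℚ) := by positivity
  have q3 := mul_le_mul_of_nonneg_left q1 (show (0 : ℚ) ≤ (j : ℚ) + 2 by positivity)
  have q4 := mul_nonneg m1 hA2.le
  rw [c1, c2]
  clear c1 c2 q1 m1 hA2
  generalize aa i (j + 2) = A0 at *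
  generalize aa (i + 2) j = A2 at *
  generalize aa (i + 1) (j + 1) = A at *
  generalize mm (i + 1) (j + 1) = m1 at *
  generalize mm (i + 2) j = m2 at *
  linarith

/-! ### Regime `l < k` -/

lemma regime2 (i j : ℕ) (h : j ≤ i) :
    aa (i + 2) j * aa (i + 2) (j + 2) ≤ aa (i + 2) (j + 1) ^ 2 := by
  have c1 := col_rec (i + 1) j
  have c2 := col_rec (i + 1) (j + 1)
  rw [show i + 1 + 1 = i + 2 by ring] at c1 c2
  rw [show j + 1 + 1 = j + 2 by ring] at c2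
  push_cast at c1 c2
  have q1 := col_mm (i + 2) j
  have q2 := key_C1 i j h
  have e : aa (i + 2) (j + 1) ^ 2 = aa (i + 2) (j + 1) *
    ((3 * ((i : ℚ) + 1) + 4) * aa (i + 2) j - 2 * mm (i + 2) j +
      ((j : ℚ) + 2) * aa (i + 1) (j + 1)) := by rw [← c1]; ring
  rw [e, c2]
  clear e c2
  rw [c1] at q1 q2 ⊢
  clear c1
  generalize aa (i + 2) j = A2 at *
  generalize aa (i + 1) (j + 1) = A at *
  generalize aa (i + 1) (j + 2) = A' at *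
  generalize mm (i + 2) (j + 1) = m1 at *
  generalize mm (i + 2) j = m2 at *
  linarith

/-! ### Regime `k ≤ l` -/

lemma RR_step (k L m : ℕ) (hk : k ≤ L + 1) (hm : m + 1 ≤ k) :
    RR k (L + 1) (m + 1) ≤ RR k (L + 1) m := by
  unfold RR
  have k1 : (k : ℚ) ≤ (L : ℚ) + 1 := by exact_mod_cast hk
  have m1 : (m : ℚ) + 1 ≤ (k : ℚ) := by exact_mod_cast hm
  have m0 : (0 : ℚ) ≤ (m : ℚ) := by positivity
  push_cast
  obtain ⟨X, hX⟩ : ∃ X : ℚ, X = (k : ℚ) - m := ⟨_, rfl⟩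
  obtain ⟨Y, hY⟩ : ∃ Y : ℚ, Y = (L : ℚ) + 1 - m := ⟨_, rfl⟩
  have hXY : X ≤ Y := by rw [hX, hY]; linarith
  have hX1 : 1 ≤ X := by rw [hX]; linarith
  have hY0 : 0 < Y := by linarith
  have e1 : (L : ℚ) + 1 + 1 - ((m : ℚ) + 1) = Y := by rw [hY]; ring
  have e2 : (L : ℚ) + 1 + 1 - (m : ℚ) = Y + 1 := by rw [hY]; ring
  have e3 : (k : ℚ) - ((m : ℚ) + 1) = X - 1 := by rw [hX]; ring
  rw [e1, e2, e3, ← hX]
  have r1 : (X - 1) / Y ≤ 1 := by rw [div_le_one hY0]; linarith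
  have r2 : (X - 1) / Y ≤ X / (Y + 1) := by
    rw [div_le_div_iff₀ hY0 (by linarith)]; nlinarith
  have r3 := mul_le_mul_of_nonneg_right r2 (show (0 : ℚ) ≤ (m : ℚ) + 1 by positivity)
  have f1 : (X - 1) * (3 + ((m : ℚ) + 1 + 1) / Y) =
      3 * X - 3 + (X - 1) / Y * ((m : ℚ) + 1) + (X - 1) / Y := by
    field_simp; ring
  have f2 : X * (3 + ((m : ℚ) + 1) / (Y + 1)) = 3 * X + X / (Y + 1) * ((m : ℚ) + 1) := by
    have : Y + 1 ≠ 0 := by linarith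
    field_simp
  rw [f1, f2]
  linarith

lemma RR_anti (k L i j : ℕ) (hk : k ≤ L + 1) (hij : i ≤ j) (hj : j ≤ k) :
    RR k (L + 1) j ≤ RR k (L + 1) i := by
  obtain ⟨t, rfl⟩ : ∃ t, j = i + t := ⟨j - i, by omega⟩
  clear hij
  induction t with
  | zero => exact le_rfl
  | succ t ih => exact le_trans (RR_step k L (i + t) hk (by omega)) (ih (by omega))

lemma regime1 (k L : ℕ) (hk : k ≤ L + 1) : aa k L * aa k (L + 2) ≤ aa k (L + 1) ^ 2 := by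
  have e1 := trans_R k L hk
  have e2 := trans_R k (L + 1) (by omega)
  have h := lr_sum (k + 1) (w k L) (w k (L + 1)) (RR k (L + 1)) (w_col_lr k L (k + 1))
    (fun i j hij hj => RR_anti k L i j hk hij.le (by omega))
  rw [← e2, ← aa_eq k L (k + 1) (by omega), ← aa_eq k (L + 1) (k + 1) (by omega)] at h
  have h2 : ∑ m ∈ range (k + 1), w k L m * RR k (L + 1) m ≤ aa k (L + 1) := by
    rw [e1]
    refine Finset.sum_le_sum fun m hm => ?_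
    rw [Finset.mem_range] at hm
    rcases Nat.lt_or_ge L m with h3 | h3
    · rw [w_zero_right k L m h3]; simp
    · refine mul_le_mul_of_nonneg_left ?_ (w_nonneg _ _ _)
      unfold RR
      have hmL : (m : ℚ) ≤ (L : ℚ) := by exact_mod_cast h3
      have hmk : (m : ℚ) ≤ (k : ℚ) := by exact_mod_cast (by omega : m ≤ k)
      have : ((m : ℚ) + 1) / (((L + 1 : ℕ) : ℚ) + 1 - m) ≤ ((m : ℚ) + 1) / ((L : ℚ) + 1 - m) := by
        apply div_le_div_of_nonneg_left (by positivity) (by linarith)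
        push_cast; linarith
      have := mul_le_mul_of_nonneg_left (add_le_add_left this 3)
        (show (0 : ℚ) ≤ (k : ℚ) - m by linarith)
      linarith
  have hpos := aa_pos k (L + 1)
  nlinarith [mul_le_mul_of_nonneg_right h2 hpos.le]

/-- **Main inequality.** -/
theorem aa_logconcave (k l : ℕ) : aa k l * aa k (l + 2) ≤ aa k (l + 1) ^ 2 := by
  rcases Nat.lt_or_ge (l + 1) k with h | h
  · obtain ⟨i, rfl⟩ : ∃ i, k = i + 2 := ⟨k - 2, by omega⟩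
    exact regime2 i l (by omega)
  · exact regime1 k l h

end Pool.Agent.Helper91.BE
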