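import Pool.Agent.Helper91.BE.W

set_option autoImplicit false

namespace Pool.Agent.Helper91.BE

open Finset

/-! ### The transition identity -/

lemma trans_term (k l m : ℕ) :
    ((k : ℚ) + l + 1) * (cc (k + l + 1) m * (k.choose m : ℚ) * ((l + 1).choose m : ℚ)) =
      ((k : ℚ) + l + 1 - 2 * m) * ((m : ℚ) + 1) * cc (k + l) m * (k.choose m : ℚ) *
        ((l + 1).choose m : ℚ) +
      4 * (m : ℚ) ^ 2 * cc (k + l) (m - 1) * (k.choose m : ℚ) * ((l + 1).choose m : ℚ) := by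
  cases m with
  | zero => rw [cc_zero_right, cc_zero_right]; push_cast; ring
  | succ m =>
    rcases Nat.lt_or_ge (k + l + 1) (2 * (m + 1)) with h | h
    · rcases Nat.lt_or_ge k (m + 1) with h1 | h1
      · rw [Nat.choose_eq_zero_of_lt h1]; simp
      · rw [Nat.choose_eq_zero_of_lt (show l + 1 < m + 1 by omega)]; simp
    · have e := cc_succ_succ (k + l) m h
      rw [Nat.add_sub_cancel]
      calc _ = (((k + l : ℕ) : ℚ) + 1) * cc (k + l + 1) (m + 1) *
            ((k.choose (m + 1) : ℚ) * ((l + 1).choose (m + 1) : ℚ)) := by push_cast; ring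
        _ = _ := by rw [e]; push_cast; ring

lemma trans_id (k l : ℕ) :
    ((l : ℚ) + 1) * aa k (l + 1) = ((k + l).choose l : ℚ) *
      ∑ m ∈ range (k + l + 2), cc (k + l) m * (k.choose m : ℚ) * ((l + 1).choose m : ℚ) *
        ((((k : ℚ) - m) + ((l : ℚ) + 1 - m)) * ((m : ℚ) + 1) +
          4 * ((k : ℚ) - m) * ((l : ℚ) + 1 - m)) := by
  have A : ((l : ℚ) + 1) * aa k (l + 1) = ((k + l).choose l : ℚ) *
      ∑ m ∈ range (k + l + 2), ((k : ℚ) + l + 1) *
        (cc (k + l + 1) m * (k.choose m : ℚ) * ((l + 1).choose m : ℚ)) := by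
    rw [aa, Finset.mul_sum, Finset.mul_sum]
    refine Finset.sum_congr (by congr 1) fun m _ => ?_
    unfold w
    have := ch3 k l
    rw [show k + (l + 1) = k + l + 1 by ring]
    calc _ = (((l : ℚ) + 1) * ((k + l + 1).choose (l + 1) : ℚ)) * cc (k + l + 1) m *
          (k.choose m : ℚ) * ((l + 1).choose m : ℚ) := by ring
      _ = _ := by rw [this]; ring
  rw [A]
  congr 1
  have B : ∑ m ∈ range (k + l + 2), 4 * (m : ℚ) ^ 2 * cc (k + l) (m - 1) * (k.choose m : ℚ) *
      ((l + 1).choose m : ℚ) =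
      ∑ m ∈ range (k + l + 2), 4 * ((m : ℚ) + 1) ^ 2 * cc (k + l) m *
        (k.choose (m + 1) : ℚ) * ((l + 1).choose (m + 1) : ℚ) := by
    rw [show k + l + 2 = (k + l + 1) + 1 by ring, Finset.sum_range_succ', Finset.sum_range_succ
      (fun m : ℕ => 4 * ((m : ℚ) + 1) ^ 2 * cc (k + l) m *
        (k.choose (m + 1) : ℚ) * ((l + 1).choose (m + 1) : ℚ))]
    rw [Nat.choose_eq_zero_of_lt (show k < k + l + 1 + 1 by omega)]
    simp only [Nat.cast_zero, Nat.add_sub_cancel]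
    push_cast
    ring
  simp_rw [trans_term]
  rw [Finset.sum_add_distrib, B, ← Finset.sum_add_distrib]
  refine Finset.sum_congr rfl fun m _ => ?_
  have e1 := ch1 k m
  have e2 := ch1 (l + 1) m
  push_cast at e2
  calc _ = ((k : ℚ) + l + 1 - 2 * m) * ((m : ℚ) + 1) * cc (k + l) m * (k.choose m : ℚ) *
        ((l + 1).choose m : ℚ) + 4 * cc (k + l) m *
        (((m : ℚ) + 1) * (k.choose (m + 1) : ℚ)) *
        (((m : ℚ) + 1) * ((l + 1).choose (m + 1) : ℚ)) := by ring
    _ = _ := by rw [e1, e2]; ring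

/-- The column recursion. -/
lemma col_rec (k l : ℕ) :
    aa (k + 1) (l + 1) = (3 * (k : ℚ) + 4) * aa (k + 1) l - 2 * mm (k + 1) l +
      ((l : ℚ) + 2) * aa k (l + 1) := by
  have hl : (0 : ℚ) < (l : ℚ) + 1 := by positivity
  have h := trans_id (k + 1) l
  have key : ((l : ℚ) + 1) * aa (k + 1) (l + 1) = ((l : ℚ) + 1) *
      ((3 * (k : ℚ) + 4) * aa (k + 1) l - 2 * mm (k + 1) l +
      ((l : ℚ) + 2) * aa k (l + 1)) := by
    rw [h, aa_eq (k + 1) l (k + 1 + l + 2) (by omega), mm_eq (k + 1) l (k + 1 + l + 2) (by omega),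
      aa_eq k (l + 1) (k + 1 + l + 2) (by omega)]
    have e : ((l : ℚ) + 1) *
      ((3 * (k : ℚ) + 4) * ∑ m ∈ range (k + 1 + l + 2), w (k + 1) l m -
        2 * ∑ m ∈ range (k + 1 + l + 2), w (k + 1) l m * (m : ℚ) +
      ((l : ℚ) + 2) * ∑ m ∈ range (k + 1 + l + 2), w k (l + 1) m) =
      ∑ m ∈ range (k + 1 + l + 2), (((l : ℚ) + 1) * (w (k + 1) l m) *
        (3 * (k : ℚ) + 4 - 2 * (m : ℚ)) + ((l : ℚ) + 1) * ((l : ℚ) + 2) * w k (l + 1) m) := by
      simp only [Finset.mul_sum, ← Finset.sum_sub_distrib, ← Finset.sum_add_distrib]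
      refine Finset.sum_congr rfl fun m _ => ?_
      ring
    rw [e, Finset.mul_sum]
    refine Finset.sum_congr rfl fun m _ => ?_
    unfold w
    have e4 := ch4 k l
    have b1 := ch2 l m
    have b2 := ch2 k m
    rw [show k + (l + 1) = k + 1 + l by ring] at e4 ⊢
    push_cast
    have r : ((l : ℚ) + 1) * ((l : ℚ) + 2) * (((k + 1 + l).choose (l + 1) : ℚ) *
        cc (k + 1 + l) m * (k.choose m : ℚ) * ((l + 1).choose m : ℚ)) =
        ((k + 1 + l).choose l : ℚ) * cc (k + 1 + l) m * ((l : ℚ) + 2) *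
        (((k : ℚ) + 1) * (k.choose m : ℚ)) * ((l + 1).choose m : ℚ) := by
      calc _ = (((l : ℚ) + 1) * ((k + 1 + l).choose (l + 1) : ℚ)) * ((l : ℚ) + 2) *
          cc (k + 1 + l) m * (k.choose m : ℚ) * ((l + 1).choose m : ℚ) := by ring
        _ = _ := by rw [e4]; ring
    rw [r, ← b2]
    have r2 : ((l : ℚ) + 1) * (((k + 1 + l).choose l : ℚ) * cc (k + 1 + l) m *
        ((k + 1).choose m : ℚ) * (l.choose m : ℚ)) * (3 * (k : ℚ) + 4 - 2 * (m : ℚ)) =
        ((k + 1 + l).choose l : ℚ) * cc (k + 1 + l) m *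
        ((k + 1).choose m : ℚ) * (((l : ℚ) + 1) * (l.choose m : ℚ)) *
        (3 * (k : ℚ) + 4 - 2 * (m : ℚ)) := by ring
    rw [r2, ← b1]
    ring
  exact mul_left_cancel₀ hl.ne' key

/-- The rate function in the regime `k ≤ l + 1`. -/
def RR (k l m : ℕ) : ℚ :=
  ((k : ℚ) + 1) + ((k : ℚ) - m) * (3 + ((m : ℚ) + 1) / ((l : ℚ) + 1 - m))

lemma trans_R (k l : ℕ) (h : k ≤ l + 1) :
    aa k (l + 1) = ∑ m ∈ range (k + 1), w k l m * RR k l m := by
  have hl : (0 : ℚ) < (l : ℚ) + 1 := by positivity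
  have key : ((l : ℚ) + 1) * aa k (l + 1) = ((l : ℚ) + 1) *
      ∑ m ∈ range (k + 1), w k l m * RR k l m := by
    rw [trans_id k l, Finset.mul_sum, Finset.mul_sum]
    have hsub : ∑ m ∈ range (k + l + 2), ((k + l).choose l : ℚ) *
        (cc (k + l) m * (k.choose m : ℚ) * ((l + 1).choose m : ℚ) *
        ((((k : ℚ) - m) + ((l : ℚ) + 1 - m)) * ((m : ℚ) + 1) +
          4 * ((k : ℚ) - m) * ((l : ℚ) + 1 - m))) =
        ∑ m ∈ range (k + 1), ((k + l).choose l : ℚ) *
        (cc (k + l) m * (k.choose m : ℚ) * ((l + 1).choose m : ℚ) *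
        ((((k : ℚ) - m) + ((l : ℚ) + 1 - m)) * ((m : ℚ) + 1) +
          4 * ((k : ℚ) - m) * ((l : ℚ) + 1 - m))) := by
      symm
      refine Finset.sum_subset ?_ ?_
      · intro x hx; rw [Finset.mem_range] at hx ⊢; omega
      · intro x _ hx
        rw [Finset.mem_range] at hx
        rw [Nat.choose_eq_zero_of_lt (show k < x by omega)]; simp
    rw [hsub]
    refine Finset.sum_congr rfl fun m hm => ?_
    rw [Finset.mem_range] at hm
    unfold w RR
    rcases Nat.lt_or_ge l m with h1 | h1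
    · -- m = l + 1 = k
      have h2 : m = l + 1 := by omega
      have h3 : k = l + 1 := by omega
      subst h2
      rw [Nat.choose_eq_zero_of_lt (show l < l + 1 by omega), h3]
      push_cast
      ring
    · have h2 : (m : ℚ) ≤ (l : ℚ) := by exact_mod_cast h1
      have h3 : (l : ℚ) + 1 - m ≠ 0 := by
        have : 0 < (l : ℚ) + 1 - m := by linarith
        exact this.ne'
      have b1 := ch2 l m
      have b1' : ((l + 1).choose m : ℚ) = ((l : ℚ) + 1) * (l.choose m : ℚ) / ((l : ℚ) + 1 - m) := by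
        rw [← b1]; field_simp
      rw [b1']
      field_simp
      ring
  exact mul_left_cancel₀ hl.ne' key

/-! ### The row identity -/

/-- The ratio of consecutive coefficients. -/
def chi (N m : ℕ) : ℚ := cc N (m + 1) / cc N m

lemma chi_ge_one (N m : ℕ) (h : 2 * (m + 1) ≤ N) : 1 ≤ chi N m := by
  unfold chi
  rw [le_div_iff₀ (cc_pos N m (by omega)), one_mul]
  exact cc_mono N m h

lemma chi_anti (N i j : ℕ) (hij : i ≤ j) (h : 2 * (j + 1) ≤ N) : chi N j ≤ chi N i := by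
  obtain ⟨t, rfl⟩ : ∃ t, j = i + t := ⟨j - i, by omega⟩
  clear hij
  induction t with
  | zero => exact le_rfl
  | succ t ih =>
    refine le_trans ?_ (ih (by omega))
    unfold chi
    rw [div_le_div_iff₀ (cc_pos N _ (by omega)) (cc_pos N _ (by omega))]
    have := cc_logc N (i + t) (by omega)
    rw [show i + (t + 1) + 1 = i + t + 2 by ring, show i + (t + 1) = i + t + 1 by ring]
    nlinarith [this]

lemma row_id (k l : ℕ) (h : l ≤ k) :
    ((l : ℚ) + 1) ^ 2 * aa k (l + 1) = ∑ m ∈ range (l + 2), w (k + 1) l m *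
      (((k : ℚ) + 1) ^ 2 + ((k : ℚ) - l) * ((k : ℚ) + 1 - m) * (chi (k + l + 1) m - 1)) := by
  have e4 := ch4 k l
  rw [aa_eq k (l + 1) (l + 2) (by omega)]
  -- rewrite both sides in terms of c
  have hL : ((l : ℚ) + 1) ^ 2 * ∑ m ∈ range (l + 2), w k (l + 1) m =
      ((k + 1 + l).choose l : ℚ) * ∑ m ∈ range (l + 2), ((l : ℚ) + 1) * ((k : ℚ) + 1) *
        (cc (k + l + 1) m * (k.choose m : ℚ) * ((l + 1).choose m : ℚ)) := by
    rw [Finset.mul_sum, Finset.mul_sum]
    refine Finset.sum_congr rfl fun m _ => ?_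
    unfold w
    rw [show cc (k + (l + 1)) m = cc (k + l + 1) m by rw [show k + (l + 1) = k + l + 1 by ring]]
    calc _ = (((l : ℚ) + 1) * ((k + (l + 1)).choose (l + 1) : ℚ)) * (((l : ℚ) + 1) *
        cc (k + l + 1) m * (k.choose m : ℚ) * ((l + 1).choose m : ℚ)) := by ring
      _ = _ := by rw [e4]; ring
  have hR : ∑ m ∈ range (l + 2), w (k + 1) l m *
      (((k : ℚ) + 1) ^ 2 + ((k : ℚ) - l) * ((k : ℚ) + 1 - m) * (chi (k + l + 1) m - 1)) =
      ((k + 1 + l).choose l : ℚ) * ∑ m ∈ range (l + 2),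
        ((l.choose m : ℚ) * ((k + 1).choose m : ℚ) *
        ((((k : ℚ) + 1) ^ 2 - ((k : ℚ) - l) * ((k : ℚ) + 1 - m)) * cc (k + l + 1) m) +
        (l.choose m : ℚ) * ((k + 1).choose m : ℚ) *
        (((k : ℚ) - l) * ((k : ℚ) + 1 - m)) * cc (k + l + 1) (m + 1)) := by
    rw [Finset.mul_sum]
    refine Finset.sum_congr rfl fun m _ => ?_
    unfold w chi
    rw [show k + 1 + l = k + l + 1 by ring]
    rcases Nat.lt_or_ge l m with h1 | h1
    · rw [Nat.choose_eq_zero_of_lt h1]; simp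
    · have hc : cc (k + l + 1) m ≠ 0 := (cc_pos _ _ (by omega)).ne'
      field_simp
      ring
  rw [hL, hR]
  congr 1
  rw [Finset.sum_add_distrib]
  have hS : ∑ m ∈ range (l + 2), (l.choose m : ℚ) * ((k + 1).choose m : ℚ) *
        (((k : ℚ) - l) * ((k : ℚ) + 1 - m)) * cc (k + l + 1) (m + 1) =
      ∑ m ∈ range (l + 2), ((k : ℚ) - l) * (m : ℚ) * ((k + 1).choose m : ℚ) *
        (((l + 1).choose m : ℚ) - (l.choose m : ℚ)) * cc (k + l + 1) m := by
    rw [show l + 2 = (l + 1) + 1 by ring, Finset.sum_range_succ, Finset.sum_range_succ'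
      (fun m : ℕ => ((k : ℚ) - l) * (m : ℚ) * ((k + 1).choose m : ℚ) *
        (((l + 1).choose m : ℚ) - (l.choose m : ℚ)) * cc (k + l + 1) m)]
    rw [Nat.choose_eq_zero_of_lt (show l < l + 1 by omega)]
    simp only [Nat.cast_zero, mul_zero, zero_mul, add_zero]
    refine Finset.sum_congr rfl fun m _ => ?_
    have c1 := ch1 (k + 1) m
    have c2 : ((l + 1).choose (m + 1) : ℚ) = (l.choose m : ℚ) + (l.choose (m + 1) : ℚ) := by
      exact_mod_cast Nat.choose_succ_succ l m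
    push_cast at c1 ⊢
    rw [c2]
    calc _ = (l.choose m : ℚ) * ((k : ℚ) - l) * (((k : ℚ) + 1 - m) * ((k + 1).choose m : ℚ)) *
          cc (k + l + 1) (m + 1) := by ring
      _ = _ := by rw [← c1]; ring
  rw [hS, ← Finset.sum_add_distrib]
  refine Finset.sum_congr rfl fun m _ => ?_
  have b1 := ch2 l m
  have b2 := ch2 k m
  -- (l+1)(k+1) C(k,m) C(l+1,m) = ...
  have : ((l : ℚ) + 1) * ((k : ℚ) + 1) *
        (cc (k + l + 1) m * (k.choose m : ℚ) * ((l + 1).choose m : ℚ)) =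
      ((l : ℚ) + 1) * cc (k + l + 1) m * (((k : ℚ) + 1) * (k.choose m : ℚ)) *
        ((l + 1).choose m : ℚ) := by ring
  rw [this, ← b2]
  have h3 : (l.choose m : ℚ) * ((l : ℚ) + 1) = ((l : ℚ) + 1 - m) * ((l + 1).choose m : ℚ) := by
    rw [b1]; ring
  -- eliminate C(l,m)
  have h4 : (l.choose m : ℚ) * ((k + 1).choose m : ℚ) *
        ((((k : ℚ) + 1) ^ 2 - ((k : ℚ) - l) * ((k : ℚ) + 1 - m)) * cc (k + l + 1) m) +
      ((k : ℚ) - l) * (m : ℚ) * ((k + 1).choose m : ℚ) *
        (((l + 1).choose m : ℚ) - (l.choose m : ℚ)) * cc (k + l + 1) m =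
      ((k + 1).choose m : ℚ) * cc (k + l + 1) m *
        (((l.choose m : ℚ) * ((l : ℚ) + 1)) * ((k : ℚ) + 1) +
          ((k : ℚ) - l) * (m : ℚ) * ((l + 1).choose m : ℚ)) := by ring
  rw [h4, h3]
  ring

/-- Consequence: the row increases strongly up to the centre. -/
lemma row_up (k l : ℕ) (h : l ≤ k) :
    ((k : ℚ) + 1) ^ 2 * aa (k + 1) l ≤ ((l : ℚ) + 1) ^ 2 * aa k (l + 1) := by
  rw [row_id k l h, aa_eq (k + 1) l (l + 2) (by omega), Finset.mul_sum]
  refine Finset.sum_le_sum fun m _ => ?_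
  rcases Nat.lt_or_ge l m with h1 | h1
  · rw [w_zero_right _ _ _ h1]; simp
  · have h0 := w_nonneg (k + 1) l m
    have hk : (l : ℚ) ≤ (k : ℚ) := by exact_mod_cast h
    have hm : (m : ℚ) ≤ (l : ℚ) := by exact_mod_cast h1
    have hx : 0 ≤ ((k : ℚ) - l) * ((k : ℚ) + 1 - m) * (chi (k + l + 1) m - 1) := by
      rcases Nat.eq_or_lt_of_le h with h2 | h2
      · rw [h2]; simp
      · have := chi_ge_one (k + l + 1) m (by omega)
        exact mul_nonneg (mul_nonneg (by linarith) (by linarith)) (by linarith)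
    nlinarith [mul_nonneg h0 hx]

/-- Strong log-concavity of the rows. -/
lemma row_strong (k l : ℕ) (h : l ≤ k) :
    ((l : ℚ) + 2) ^ 2 * ((k : ℚ) + 2) ^ 2 * (aa (k + 2) l * aa k (l + 2)) ≤
      ((l : ℚ) + 1) ^ 2 * ((k : ℚ) + 1) ^ 2 * aa (k + 1) (l + 1) ^ 2 := by
  have p1 := aa_pos (k + 2) l
  have p2 := aa_pos k (l + 2)
  have p3 := aa_pos (k + 1) (l + 1)
  rcases Nat.eq_or_lt_of_le h with h0 | h0
  · subst h0
    have := row_up (l + 1) l (by omega)
    push_cast at this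
    have e : aa l (l + 2) = aa (l + 2) l := aa_symm _ _
    rw [e]
    have q := mul_le_mul this this (by positivity) (by positivity)
    rw [show l + 1 + 1 = l + 2 by ring] at q
    nlinarith [q]
  · -- k ≥ l + 1
    have hk : (l : ℚ) + 1 ≤ (k : ℚ) := by exact_mod_cast h0
    have E0 := row_id (k + 1) l (by omega)
    have E1 := row_id k (l + 1) (by omega)
    rw [show k + 1 + 1 = k + 2 by ring] at E0
    rw [show l + 1 + 1 = l + 2 by ring, show l + 1 + 2 = l + 3 by ring] at E1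
    push_cast at E0 E1
    have hlr := w_row_lr (k + 1) l (l + 3) (by omega)
    have hG : ∀ i j, i < j → j < l + 3 →
        (((k : ℚ) + 1) ^ 2 + ((k : ℚ) - (l + 1)) * ((k : ℚ) + 1 - j) *
          ((if j ≤ l + 1 then chi (k + (l + 1) + 1) j else 1) - 1)) ≤
        (((k : ℚ) + 1) ^ 2 + ((k : ℚ) - (l + 1)) * ((k : ℚ) + 1 - i) *
          ((if i ≤ l + 1 then chi (k + (l + 1) + 1) i else 1) - 1)) := by
      intro i j hij hj
      have hi : i ≤ l + 1 := by omega
      rw [if_pos hi]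
      have hiq : (i : ℚ) ≤ (l : ℚ) + 1 := by exact_mod_cast hi
      rcases Nat.eq_or_lt_of_le (show l + 1 ≤ k by omega) with h2 | h2
      · have : (k : ℚ) - ((l : ℚ) + 1) = 0 := by rw [← h2]; push_cast; ring
        rw [this]; simp
      · have c1 := chi_ge_one (k + (l + 1) + 1) i (by omega)
        have a1 : 0 ≤ ((k : ℚ) - (l + 1)) * ((k : ℚ) + 1 - i) :=
          mul_nonneg (by linarith) (by linarith)
        rcases Nat.lt_or_ge (l + 1) j with h3 | h3
        · rw [if_neg (by omega)]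
          have := mul_nonneg a1 (show 0 ≤ chi (k + (l + 1) + 1) i - 1 by linarith)
          linarith
        · rw [if_pos h3]
          have c2 := chi_anti (k + (l + 1) + 1) i j hij.le (by omega)
          have c3 := chi_ge_one (k + (l + 1) + 1) j (by omega)
          have hjq : (j : ℚ) ≤ (l : ℚ) + 1 := by exact_mod_cast h3
          have hijq : (i : ℚ) ≤ (j : ℚ) := by exact_mod_cast hij.le
          have a2 : ((k : ℚ) - (l + 1)) * ((k : ℚ) + 1 - j) ≤
            ((k : ℚ) - (l + 1)) * ((k : ℚ) + 1 - i) :=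
            mul_le_mul_of_nonneg_left (by linarith) (by linarith)
          have a3 : ((k : ℚ) - (l + 1)) * ((k : ℚ) + 1 - j) * (chi (k + (l + 1) + 1) j - 1) ≤
            ((k : ℚ) - (l + 1)) * ((k : ℚ) + 1 - i) * (chi (k + (l + 1) + 1) i - 1) :=
            mul_le_mul a2 (by linarith) (by linarith) a1
          linarith
    have LR := lr_sum (l + 3) (w (k + 2) l) (w (k + 1) (l + 1))
      (fun m => (((k : ℚ) + 1) ^ 2 + ((k : ℚ) - (l + 1)) * ((k : ℚ) + 1 - m) *
          ((if m ≤ l + 1 then chi (k + (l + 1) + 1) m else 1) - 1))) hlr hG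
    -- identify the sums
    have s1 : ∑ m ∈ range (l + 3), w (k + 2) l m = aa (k + 2) l :=
      (aa_eq _ _ _ (by omega)).symm
    have s2 : ∑ m ∈ range (l + 3), w (k + 1) (l + 1) m = aa (k + 1) (l + 1) :=
      (aa_eq _ _ _ (by omega)).symm
    have s3 : ∑ m ∈ range (l + 3), w (k + 1) (l + 1) m *
        (((k : ℚ) + 1) ^ 2 + ((k : ℚ) - (l + 1)) * ((k : ℚ) + 1 - m) *
          ((if m ≤ l + 1 then chi (k + (l + 1) + 1) m else 1) - 1)) =
        ((l : ℚ) + 1 + 1) ^ 2 * aa k (l + 2) := by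
      rw [E1]
      refine Finset.sum_congr rfl fun m _ => ?_
      rcases Nat.lt_or_ge (l + 1) m with h3 | h3
      · rw [w_zero_right _ _ _ h3]; simp
      · rw [if_pos h3]
    have s4 : ((k : ℚ) + 2) ^ 2 * ∑ m ∈ range (l + 3), w (k + 2) l m *
        (((k : ℚ) + 1) ^ 2 + ((k : ℚ) - (l + 1)) * ((k : ℚ) + 1 - m) *
          ((if m ≤ l + 1 then chi (k + (l + 1) + 1) m else 1) - 1)) ≤
        ((k : ℚ) + 1) ^ 2 * (((l : ℚ) + 1) ^ 2 * aa (k + 1) (l + 1)) := by
      rw [E0, Finset.mul_sum, Finset.mul_sum, Finset.sum_range_succ _ (l + 2)]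
      rw [w_zero_right (k + 2) l (l + 2) (by omega)]
      simp only [zero_mul, mul_zero, add_zero]
      refine Finset.sum_le_sum fun m _ => ?_
      rcases Nat.lt_or_ge l m with h3 | h3
      · rw [w_zero_right _ _ _ h3]; simp
      · rw [if_pos (by omega)]
        have hw := w_nonneg (k + 2) l m
        have hm : (m : ℚ) ≤ (l : ℚ) := by exact_mod_cast h3
        have m0 : (0 : ℚ) ≤ (m : ℚ) := by positivity
        have l0 : (0 : ℚ) ≤ (l : ℚ) := by positivity
        have hN : k + 1 + l + 1 = k + (l + 1) + 1 := by ring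
        rw [hN]
        have c1 := chi_ge_one (k + (l + 1) + 1) m (by omega)
        have a1 : ((k : ℚ) + 2) * ((k : ℚ) + 1 - m) ≤ ((k : ℚ) + 1) * ((k : ℚ) + 1 + 1 - m) := by
          nlinarith
        have a2 : ((k : ℚ) + 2) * ((k : ℚ) - (l + 1)) ≤ ((k : ℚ) + 1) * ((k : ℚ) + 1 - l) := by
          nlinarith
        have a3 : (((k : ℚ) + 2) * ((k : ℚ) - (l + 1))) * (((k : ℚ) + 2) * ((k : ℚ) + 1 - m)) ≤
          (((k : ℚ) + 1) * ((k : ℚ) + 1 - l)) * (((k : ℚ) + 1) * ((k : ℚ) + 1 + 1 - m)) :=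
          mul_le_mul a2 a1 (mul_nonneg (by positivity) (by linarith))
            (mul_nonneg (by positivity) (by linarith))
        have a4 := mul_le_mul_of_nonneg_right a3
          (show 0 ≤ chi (k + (l + 1) + 1) m - 1 by linarith)
        have a5 := mul_le_mul_of_nonneg_left a4 hw
        nlinarith [a5]
    rw [s1, s2, s3] at LR
    -- LR : aa (k+2) l * ((l+1+1)^2 * aa k (l+2)) ≤ S * aa (k+1) (l+1)
    have f1 := mul_le_mul_of_nonneg_left LR (show (0 : ℚ) ≤ ((k : ℚ) + 2) ^ 2 by positivity)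
    have f2 := mul_le_mul_of_nonneg_right s4 p3.le
    nlinarith [f1, f2]

end Pool.Agent.Helper91.BE
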