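import Pool.Agent.Helper91.BE.C

set_option autoImplicit false

namespace Pool.Agent.Helper91.BE

open Finset

/-! ### Likelihood-ratio lemma -/

lemma lr_sum (M : ℕ) (μ ν f : ℕ → ℚ)
    (hLR : ∀ i j, i < j → j < M → μ j * ν i ≤ μ i * ν j)
    (hf : ∀ i j, i < j → j < M → f j ≤ f i) :
    (∑ m ∈ range M, μ m) * (∑ m ∈ range M, ν m * f m) ≤
      (∑ m ∈ range M, μ m * f m) * (∑ m ∈ range M, ν m) := by
  have e1 : (∑ m ∈ range M, μ m * f m) * (∑ m ∈ range M, ν m) -
      (∑ m ∈ range M, μ m) * (∑ m ∈ range M, ν m * f m) =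
      ∑ i ∈ range M, ∑ j ∈ range M, μ i * ν j * (f i - f j) := by
    rw [Finset.sum_mul_sum, Finset.sum_mul_sum, ← Finset.sum_sub_distrib]
    refine Finset.sum_congr rfl fun i _ => ?_
    rw [← Finset.sum_sub_distrib]
    refine Finset.sum_congr rfl fun j _ => ?_
    ring
  have e2 : ∑ i ∈ range M, ∑ j ∈ range M, μ i * ν j * (f i - f j) =
      ∑ i ∈ range M, ∑ j ∈ range M, μ j * ν i * (f j - f i) := by
    rw [Finset.sum_comm]
  have e3 : 0 ≤ ∑ i ∈ range M, ∑ j ∈ range M,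
      (μ i * ν j - μ j * ν i) * (f i - f j) := by
    refine Finset.sum_nonneg fun i hi => Finset.sum_nonneg fun j hj => ?_
    rw [Finset.mem_range] at hi hj
    rcases lt_trichotomy i j with h | h | h
    · exact mul_nonneg (sub_nonneg.2 (hLR i j h hj)) (sub_nonneg.2 (hf i j h hj))
    · subst h; simp
    · have a1 := hLR j i h hi
      have a2 := hf j i h hi
      nlinarith [mul_nonneg (sub_nonneg.2 a1) (sub_nonneg.2 a2)]
  have e4 : ∑ i ∈ range M, ∑ j ∈ range M, (μ i * ν j - μ j * ν i) * (f i - f j) =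
      (∑ i ∈ range M, ∑ j ∈ range M, μ i * ν j * (f i - f j)) +
      ∑ i ∈ range M, ∑ j ∈ range M, μ j * ν i * (f j - f i) := by
    rw [← Finset.sum_add_distrib]
    refine Finset.sum_congr rfl fun i _ => ?_
    rw [← Finset.sum_add_distrib]
    refine Finset.sum_congr rfl fun j _ => ?_
    ring
  rw [e4, ← e2] at e3
  linarith

lemma lr_of_consec (L M : ℕ) (μ ν : ℕ → ℚ) (hpos : ∀ m, m < L → 0 < μ m)
    (h0 : ∀ m, L ≤ m → m < M → μ m = 0) (hμ : ∀ m, 0 ≤ μ m) (hν : ∀ m, 0 ≤ ν m)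
    (hc : ∀ m, m + 1 < L → μ (m + 1) * ν m ≤ μ m * ν (m + 1)) :
    ∀ i j, i < j → j < M → μ j * ν i ≤ μ i * ν j := by
  intro i j hij hj
  rcases Nat.lt_or_ge j L with hjL | hjL
  · clear hj
    obtain ⟨t, rfl⟩ : ∃ t, j = i + 1 + t := ⟨j - (i + 1), by omega⟩
    clear hij
    induction t with
    | zero => exact hc i hjL
    | succ t ih =>
      have h1 := ih (by omega)
      have h2 := hc (i + 1 + t) (by omega)
      have hp := hpos (i + 1 + t) (by omega)
      refine le_of_mul_le_mul_left ?_ hp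
      have s1 := mul_le_mul_of_nonneg_right h1 (hμ (i + 1 + (t + 1)))
      have s2 := mul_le_mul_of_nonneg_left h2 (hμ i)
      calc μ (i + 1 + t) * (μ (i + 1 + (t + 1)) * ν i)
          = μ (i + 1 + t) * ν i * μ (i + 1 + (t + 1)) := by ring
        _ ≤ μ i * ν (i + 1 + t) * μ (i + 1 + (t + 1)) := s1
        _ = μ i * (μ (i + 1 + t + 1) * ν (i + 1 + t)) := by
            rw [show i + 1 + (t + 1) = i + 1 + t + 1 by ring]; ring
        _ ≤ μ i * (μ (i + 1 + t) * ν (i + 1 + t + 1)) := s2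
        _ = μ (i + 1 + t) * (μ i * ν (i + 1 + (t + 1))) := by
            rw [show i + 1 + (t + 1) = i + 1 + t + 1 by ring]; ring
  · rw [h0 j hjL hj, zero_mul]
    exact mul_nonneg (hμ i) (hν j)

/-! ### Binomial identities over `ℚ` -/

lemma ch1 (k m : ℕ) :
    ((m : ℚ) + 1) * (k.choose (m + 1) : ℚ) = ((k : ℚ) - m) * (k.choose m : ℚ) := by
  rcases Nat.lt_or_ge k m with h | h
  · rw [Nat.choose_eq_zero_of_lt h, Nat.choose_eq_zero_of_lt (by omega)]; simp
  · have := Nat.choose_succ_right_eq k m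
    have h2 : ((k.choose (m + 1) * (m + 1) : ℕ) : ℚ) = ((k.choose m * (k - m) : ℕ) : ℚ) := by
      rw [this]
    push_cast [Nat.cast_sub h] at h2
    linarith

lemma ch2 (l m : ℕ) :
    ((l : ℚ) + 1 - m) * ((l + 1).choose m : ℚ) = ((l : ℚ) + 1) * (l.choose m : ℚ) := by
  rcases Nat.lt_or_ge (l + 1) m with h | h
  · rw [Nat.choose_eq_zero_of_lt h, Nat.choose_eq_zero_of_lt (by omega)]; simp
  · have := Nat.choose_mul_succ_eq l m
    have h2 : ((l.choose m * (l + 1) : ℕ) : ℚ) = (((l + 1).choose m * (l + 1 - m) : ℕ) : ℚ) := by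
      rw [this]
    push_cast [Nat.cast_sub h] at h2
    linarith

lemma ch3 (k l : ℕ) :
    ((l : ℚ) + 1) * ((k + l + 1).choose (l + 1) : ℚ) =
      ((k : ℚ) + l + 1) * ((k + l).choose l : ℚ) := by
  have := Nat.add_one_mul_choose_eq (k + l) l
  have h2 : (((k + l + 1) * (k + l).choose l : ℕ) : ℚ) =
    (((k + l + 1).choose (l + 1) * (l + 1) : ℕ) : ℚ) := by rw [this]
  push_cast at h2
  linarith

/-- the row step `C(N, l+1) (l+1) = C(N,l) (N-l)`, `N = k + 1 + l`. -/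
lemma ch4 (k l : ℕ) :
    ((l : ℚ) + 1) * ((k + (l + 1)).choose (l + 1) : ℚ) =
      ((k : ℚ) + 1) * ((k + 1 + l).choose l : ℚ) := by
  have := ch1 (k + 1 + l) l
  rw [show k + (l + 1) = k + 1 + l by ring]
  push_cast at this
  rw [this]; ring

/-! ### The weights -/

/-- `w k l m` counts (in the normalisation of `cc`) the trees with `k` right edges, `l` left
edges and `m` vertices with two children. -/
def w (k l m : ℕ) : ℚ :=
  ((k + l).choose l : ℚ) * cc (k + l) m * (k.choose m : ℚ) * (l.choose m : ℚ)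

/-- The total weight. -/
def aa (k l : ℕ) : ℚ := ∑ m ∈ range (k + l + 1), w k l m

/-- The first moment. -/
def mm (k l : ℕ) : ℚ := ∑ m ∈ range (k + l + 1), w k l m * (m : ℚ)

lemma w_nonneg (k l m : ℕ) : 0 ≤ w k l m := by
  unfold w
  have := cc_nonneg (k + l) m
  positivity

lemma w_zero_left (k l m : ℕ) (h : k < m) : w k l m = 0 := by
  unfold w; rw [Nat.choose_eq_zero_of_lt h]; simp

lemma w_zero_right (k l m : ℕ) (h : l < m) : w k l m = 0 := by
  unfold w; rw [Nat.choose_eq_zero_of_lt h]; simp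

lemma w_zero (k l m : ℕ) (h : min k l < m) : w k l m = 0 := by
  rcases min_lt_iff.1 h with h | h
  · exact w_zero_left k l m h
  · exact w_zero_right k l m h

lemma w_pos (k l m : ℕ) (h1 : m ≤ k) (h2 : m ≤ l) : 0 < w k l m := by
  unfold w
  have := cc_pos (k + l) m (by omega)
  have a1 : 0 < k.choose m := Nat.choose_pos h1
  have a2 : 0 < l.choose m := Nat.choose_pos h2
  have a3 : 0 < (k + l).choose l := Nat.choose_pos (by omega)
  have b1 : (0 : ℚ) < (k.choose m : ℚ) := by exact_mod_cast a1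
  have b2 : (0 : ℚ) < (l.choose m : ℚ) := by exact_mod_cast a2
  have b3 : (0 : ℚ) < ((k + l).choose l : ℚ) := by exact_mod_cast a3
  positivity

lemma sum_w (k l M : ℕ) (h : min k l < M) (f : ℕ → ℚ) :
    ∑ m ∈ range (k + l + 1), w k l m * f m = ∑ m ∈ range M, w k l m * f m := by
  have key : ∀ A : ℕ, min k l < A → ∑ m ∈ range A, w k l m * f m =
      ∑ m ∈ range (min k l + 1), w k l m * f m := by
    intro A hA
    symm
    refine Finset.sum_subset ?_ ?_
    · intro x hx; rw [Finset.mem_range] at hx ⊢; omega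
    · intro x _ hx
      rw [Finset.mem_range] at hx
      rw [w_zero k l x (by omega), zero_mul]
  rw [key _ (by omega), key _ h]

lemma aa_eq (k l M : ℕ) (h : min k l < M) : aa k l = ∑ m ∈ range M, w k l m := by
  have := sum_w k l M h (fun _ => 1)
  simpa [aa] using this

lemma mm_eq (k l M : ℕ) (h : min k l < M) :
    mm k l = ∑ m ∈ range M, w k l m * (m : ℚ) := sum_w k l M h (fun m => (m : ℚ))

lemma w_symm (k l m : ℕ) : w k l m = w l k m := by
  have h : (k + l).choose l = (l + k).choose k := by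
    rw [Nat.add_comm k l]; exact Nat.choose_symm_add
  unfold w
  rw [h, Nat.add_comm k l]
  ring

lemma aa_symm (k l : ℕ) : aa k l = aa l k := by
  rw [aa, aa, Nat.add_comm l k]
  exact Finset.sum_congr rfl fun m _ => w_symm k l m

lemma aa_pos (k l : ℕ) : 0 < aa k l := by
  rw [aa]
  refine Finset.sum_pos' (fun m _ => w_nonneg k l m) ⟨0, by simp, w_pos k l 0 (by omega) (by omega)⟩

/-! ### Column likelihood ratio -/

lemma w_col (k l m : ℕ) (h1 : m + 1 ≤ k) (h2 : m + 1 ≤ l) :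
    w k l (m + 1) * w k (l + 1) m ≤ w k l m * w k (l + 1) (m + 1) := by
  have hs := cc_step (k + l) m (by omega)
  obtain ⟨X, hX⟩ : ∃ X : ℚ, X = cc (k + l + 1) m * cc (k + l) (m + 1) := ⟨_, rfl⟩
  obtain ⟨Y, hY⟩ : ∃ Y : ℚ, Y = cc (k + l + 1) (m + 1) * cc (k + l) m := ⟨_, rfl⟩
  rw [← hX, ← hY] at hs
  have hY0 : 0 ≤ Y := by rw [hY]; exact mul_nonneg (cc_nonneg _ _) (cc_nonneg _ _)
  have hX0 : 0 ≤ X := by rw [hX]; exact mul_nonneg (cc_nonneg _ _) (cc_nonneg _ _)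
  push_cast at hs
  have k1 : (m : ℚ) + 1 ≤ (k : ℚ) := by exact_mod_cast h1
  have l1 : (m : ℚ) + 1 ≤ (l : ℚ) := by exact_mod_cast h2
  have hXY : ((l : ℚ) - m) * X ≤ ((l : ℚ) + 1 - m) * Y := by
    have hD : (0 : ℚ) < (k : ℚ) + l - 2 * ((m : ℚ) + 1) + 1 := by linarith
    refine le_of_mul_le_mul_left ?_ hD
    have s1 := mul_le_mul_of_nonneg_left hs (show (0 : ℚ) ≤ (l : ℚ) - m by linarith)
    have s2 : ((l : ℚ) - m) * ((k : ℚ) + l - 2 * ((m : ℚ) + 1) + 2) ≤
        ((k : ℚ) + l - 2 * ((m : ℚ) + 1) + 1) * ((l : ℚ) + 1 - m) := by nlinarith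
    have s3 := mul_le_mul_of_nonneg_right s2 hY0
    nlinarith [s1, s3]
  have m0 : (0 : ℚ) < (m : ℚ) + 1 := by positivity
  refine le_of_mul_le_mul_left ?_ m0
  have e1 := ch1 l m
  have e2 := ch1 (l + 1) m
  push_cast at e2
  have r1 : ((m : ℚ) + 1) * (w k l (m + 1) * w k (l + 1) m) =
      (((k + l).choose l : ℚ) * ((k + (l + 1)).choose (l + 1) : ℚ) * (k.choose (m + 1) : ℚ) *
        (k.choose m : ℚ) * ((l + 1).choose m : ℚ) * (l.choose m : ℚ)) * (((l : ℚ) - m) * X) := by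
    unfold w
    rw [hX]
    have : ((m : ℚ) + 1) * (l.choose (m + 1) : ℚ) = ((l : ℚ) - m) * (l.choose m : ℚ) := e1
    calc _ = ((k + l).choose l : ℚ) * ((k + (l + 1)).choose (l + 1) : ℚ) *
          (k.choose (m + 1) : ℚ) * (k.choose m : ℚ) * ((l + 1).choose m : ℚ) *
          (((m : ℚ) + 1) * (l.choose (m + 1) : ℚ)) *
          (cc (k + (l + 1)) m * cc (k + l) (m + 1)) := by ring
      _ = _ := by rw [this, show k + (l + 1) = k + l + 1 by ring]; ring
  have r2 : ((m : ℚ) + 1) * (w k l m * w k (l + 1) (m + 1)) =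
      (((k + l).choose l : ℚ) * ((k + (l + 1)).choose (l + 1) : ℚ) * (k.choose (m + 1) : ℚ) *
        (k.choose m : ℚ) * ((l + 1).choose m : ℚ) * (l.choose m : ℚ)) *
        (((l : ℚ) + 1 - m) * Y) := by
    unfold w
    rw [hY]
    calc _ = ((k + l).choose l : ℚ) * ((k + (l + 1)).choose (l + 1) : ℚ) *
          (k.choose (m + 1) : ℚ) * (k.choose m : ℚ) * (l.choose m : ℚ) *
          (((m : ℚ) + 1) * ((l + 1).choose (m + 1) : ℚ)) *
          (cc (k + (l + 1)) (m + 1) * cc (k + l) m) := by ring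
      _ = _ := by rw [e2, show k + (l + 1) = k + l + 1 by ring]; ring
  rw [r1, r2]
  exact mul_le_mul_of_nonneg_left hXY (by positivity)

/-- Full column likelihood-ratio order. -/
lemma w_col_lr (k l M : ℕ) :
    ∀ i j, i < j → j < M → w k l j * w k (l + 1) i ≤ w k l i * w k (l + 1) j := by
  refine lr_of_consec (min k l + 1) M (w k l) (w k (l + 1)) ?_ ?_ (w_nonneg k l)
    (w_nonneg k (l + 1)) ?_
  · intro m hm; exact w_pos k l m (by omega) (by omega)
  · intro m hm _; exact w_zero k l m (by omega)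
  · intro m hm; exact w_col k l m (by omega) (by omega)

/-! ### Row likelihood ratio -/

lemma w_row (k l m : ℕ) (hlk : l ≤ k) (h2 : m + 1 ≤ l) :
    w (k + 1) l (m + 1) * w k (l + 1) m ≤ w (k + 1) l m * w k (l + 1) (m + 1) := by
  have k1 : (l : ℚ) ≤ (k : ℚ) := by exact_mod_cast hlk
  have l1 : (m : ℚ) + 1 ≤ (l : ℚ) := by exact_mod_cast h2
  have m0 : (0 : ℚ) < ((m : ℚ) + 1) ^ 2 := by positivity
  refine le_of_mul_le_mul_left ?_ m0
  have e1 := ch1 l m
  have e2 := ch1 (l + 1) m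
  have e3 := ch1 k m
  have e4 := ch1 (k + 1) m
  push_cast at e2 e4
  have hN : k + 1 + l = k + (l + 1) := by ring
  have r1 : ((m : ℚ) + 1) ^ 2 * (w (k + 1) l (m + 1) * w k (l + 1) m) =
      (((k + 1 + l).choose l : ℚ) * ((k + (l + 1)).choose (l + 1) : ℚ) *
        cc (k + (l + 1)) m * cc (k + (l + 1)) (m + 1) *
        ((k + 1).choose m : ℚ) * (k.choose m : ℚ) * ((l + 1).choose m : ℚ) *
        (l.choose m : ℚ)) * (((k : ℚ) + 1 - m) * ((l : ℚ) - m)) := by
    unfold w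
    calc _ = ((k + 1 + l).choose l : ℚ) * ((k + (l + 1)).choose (l + 1) : ℚ) *
        cc (k + (l + 1)) m * cc (k + 1 + l) (m + 1) *
          (k.choose m : ℚ) * ((l + 1).choose m : ℚ) *
          (((m : ℚ) + 1) * (l.choose (m + 1) : ℚ)) *
          (((m : ℚ) + 1) * ((k + 1).choose (m + 1) : ℚ)) := by ring
      _ = _ := by rw [e1, e4, hN]; ring
  have r2 : ((m : ℚ) + 1) ^ 2 * (w (k + 1) l m * w k (l + 1) (m + 1)) =
      (((k + 1 + l).choose l : ℚ) * ((k + (l + 1)).choose (l + 1) : ℚ) *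
        cc (k + (l + 1)) m * cc (k + (l + 1)) (m + 1) *
        ((k + 1).choose m : ℚ) * (k.choose m : ℚ) * ((l + 1).choose m : ℚ) *
        (l.choose m : ℚ)) * (((k : ℚ) - m) * ((l : ℚ) + 1 - m)) := by
    unfold w
    calc _ = ((k + 1 + l).choose l : ℚ) * ((k + (l + 1)).choose (l + 1) : ℚ) *
        cc (k + 1 + l) m * cc (k + (l + 1)) (m + 1) *
          ((k + 1).choose m : ℚ) * (l.choose m : ℚ) *
          (((m : ℚ) + 1) * ((l + 1).choose (m + 1) : ℚ)) *
          (((m : ℚ) + 1) * (k.choose (m + 1) : ℚ)) := by ring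
      _ = _ := by rw [e2, e3, hN]; ring
  rw [r1, r2]
  have := cc_nonneg (k + (l + 1)) m
  have := cc_nonneg (k + (l + 1)) (m + 1)
  exact mul_le_mul_of_nonneg_left (by nlinarith) (by positivity)

lemma w_row_lr (k l M : ℕ) (hlk : l ≤ k) :
    ∀ i j, i < j → j < M → w (k + 1) l j * w k (l + 1) i ≤ w (k + 1) l i * w k (l + 1) j := by
  refine lr_of_consec (l + 1) M (w (k + 1) l) (w k (l + 1)) ?_ ?_ (w_nonneg _ _)
    (w_nonneg _ _) ?_
  · intro m hm; exact w_pos _ _ m (by omega) (by omega)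
  · intro m hm _; exact w_zero_right _ _ m (by omega)
  · intro m hm; exact w_row k l m hlk (by omega)

/-- Shifted row likelihood ratio. -/
lemma w_row' (k l m : ℕ) (hlk : l ≤ k) (h2 : m + 1 ≤ l) (hk : m + 2 ≤ k) :
    w k (l + 1) (m + 2) * w (k + 1) l m ≤ w k (l + 1) (m + 1) * w (k + 1) l (m + 1) := by
  have k1 : (m : ℚ) + 2 ≤ (k : ℚ) := by exact_mod_cast hk
  have l1 : (m : ℚ) + 1 ≤ (l : ℚ) := by exact_mod_cast h2
  have m0 : (0 : ℚ) < (((m : ℚ) + 1) * ((m : ℚ) + 2)) ^ 2 := by positivity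
  refine le_of_mul_le_mul_left ?_ m0
  have e1 := ch1 l m
  have e2 := ch1 (l + 1) (m + 1)
  have e3 := ch1 k (m + 1)
  have e4 := ch1 (k + 1) m
  push_cast at e2 e3 e4
  have hN : k + 1 + l = k + (l + 1) := by ring
  have hl := cc_logc (k + (l + 1)) m (by omega)
  have c0 := cc_nonneg (k + (l + 1)) m
  have c1 := cc_nonneg (k + (l + 1)) (m + 1)
  have c2 := cc_nonneg (k + (l + 1)) (m + 2)
  have e2' : ((m : ℚ) + 2) * ((l + 1).choose (m + 2) : ℚ) =
    ((l : ℚ) - m) * ((l + 1).choose (m + 1) : ℚ) := by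
    have : (m : ℚ) + 2 = (m : ℚ) + 1 + 1 := by ring
    rw [this, e2]; ring
  have e3' : ((m : ℚ) + 2) * (k.choose (m + 2) : ℚ) =
    ((k : ℚ) - (m + 1)) * (k.choose (m + 1) : ℚ) := by
    have : (m : ℚ) + 2 = (m : ℚ) + 1 + 1 := by ring
    rw [this, e3]
  have r1 : (((m : ℚ) + 1) * ((m : ℚ) + 2)) ^ 2 * (w k (l + 1) (m + 2) * w (k + 1) l m) =
      (((k + 1 + l).choose l : ℚ) * ((k + (l + 1)).choose (l + 1) : ℚ) *
        ((k + 1).choose m : ℚ) * (k.choose (m + 1) : ℚ) * ((l + 1).choose (m + 1) : ℚ) *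
        (l.choose m : ℚ)) * (((m : ℚ) + 1) ^ 2 * (((k : ℚ) - (m + 1)) * ((l : ℚ) - m)) *
        (cc (k + (l + 1)) m * cc (k + (l + 1)) (m + 2))) := by
    unfold w
    calc _ = ((m : ℚ) + 1) ^ 2 * (((k + 1 + l).choose l : ℚ) *
        ((k + (l + 1)).choose (l + 1) : ℚ) *
        cc (k + 1 + l) m * cc (k + (l + 1)) (m + 2) *
          ((k + 1).choose m : ℚ) * (l.choose m : ℚ) *
          (((m : ℚ) + 2) * ((l + 1).choose (m + 2) : ℚ)) *
          (((m : ℚ) + 2) * (k.choose (m + 2) : ℚ))) := by ring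
      _ = _ := by rw [e2', e3', hN]; ring
  have r2 : (((m : ℚ) + 1) * ((m : ℚ) + 2)) ^ 2 *
      (w k (l + 1) (m + 1) * w (k + 1) l (m + 1)) =
      (((k + 1 + l).choose l : ℚ) * ((k + (l + 1)).choose (l + 1) : ℚ) *
        ((k + 1).choose m : ℚ) * (k.choose (m + 1) : ℚ) * ((l + 1).choose (m + 1) : ℚ) *
        (l.choose m : ℚ)) * (((m : ℚ) + 2) ^ 2 * (((k : ℚ) + 1 - m) * ((l : ℚ) - m)) *
        (cc (k + (l + 1)) (m + 1) ^ 2)) := by
    unfold w
    calc _ = ((m : ℚ) + 2) ^ 2 * (((k + 1 + l).choose l : ℚ) *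
        ((k + (l + 1)).choose (l + 1) : ℚ) *
        cc (k + 1 + l) (m + 1) * cc (k + (l + 1)) (m + 1) *
          (k.choose (m + 1) : ℚ) * ((l + 1).choose (m + 1) : ℚ) *
          (((m : ℚ) + 1) * (l.choose (m + 1) : ℚ)) *
          (((m : ℚ) + 1) * ((k + 1).choose (m + 1) : ℚ))) := by ring
      _ = _ := by rw [e1, e4, hN]; ring
  rw [r1, r2]
  refine mul_le_mul_of_nonneg_left ?_ (by positivity)
  have t1 : ((m : ℚ) + 1) ^ 2 * (((k : ℚ) - (m + 1)) * ((l : ℚ) - m)) ≤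
      ((m : ℚ) + 2) ^ 2 * (((k : ℚ) + 1 - m) * ((l : ℚ) - m)) := by
    have u1 : ((m : ℚ) + 1) ^ 2 ≤ ((m : ℚ) + 2) ^ 2 := by
      have : (0 : ℚ) ≤ (m : ℚ) := by positivity
      nlinarith
    have u2 : (((k : ℚ) - (m + 1)) * ((l : ℚ) - m)) ≤ (((k : ℚ) + 1 - m) * ((l : ℚ) - m)) := by
      nlinarith
    exact mul_le_mul u1 u2 (mul_nonneg (by linarith) (by linarith)) (by positivity)
  exact mul_le_mul t1 hl (by positivity)
    (mul_nonneg (by positivity) (mul_nonneg (by linarith) (by linarith)))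

end Pool.Agent.Helper91.BE
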